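import Pool.Agent.N208.AM.RLie

set_option autoImplicit false
set_option linter.unusedSectionVars false
set_option linter.unusedVariables false

/-!
# Real Lie algebras with a complex structure: subalgebras which project onto the noncompact part
-/

open Module Matrix Polynomial Pool.Agent.N208.AM

namespace Pool.Agent.N113.BT

variable {n : ℕ} {m : Submodule ℝ (Matrix (Fin n) (Fin n) ℝ)} {N : Matrix (Fin n) (Fin n) ℝ}

/-- The positive definite form. -/
noncomputable def bf (N x y : Matrix (Fin n) (Fin n) ℝ) : ℝ :=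
  -(x * y).trace + (1 / 2 : ℝ) * (RLie.br N x * RLie.br N y).trace

theorem tr_NN (N x y : Matrix (Fin n) (Fin n) ℝ) :
    (RLie.br N (RLie.br N x) * y).trace = -(RLie.br N x * RLie.br N y).trace := by
  rw [RLie.br_anti N (RLie.br N x), neg_mul, Matrix.trace_neg, RLie.tr_br]

theorem bf_eq (N x y : Matrix (Fin n) (Fin n) ℝ) :
    bf N x y = -((x + (1 / 2 : ℝ) • RLie.br N (RLie.br N x)) * y).trace := by
  unfold bf
  rw [add_mul, Matrix.trace_add, smul_mul_assoc, Matrix.trace_smul, tr_NN, smul_eq_mul]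
  ring

theorem bf_symm (x y : Matrix (Fin n) (Fin n) ℝ) : bf N x y = bf N y x := by
  unfold bf
  rw [Matrix.trace_mul_comm x y, Matrix.trace_mul_comm (RLie.br N x)]

theorem bf_add (x y z : Matrix (Fin n) (Fin n) ℝ) : bf N (x + y) z = bf N x z + bf N y z := by
  unfold bf
  rw [map_add, add_mul, add_mul, Matrix.trace_add, Matrix.trace_add]
  ring

theorem bf_smul (c : ℝ) (x z : Matrix (Fin n) (Fin n) ℝ) : bf N (c • x) z = c * bf N x z := by
  unfold bf
  rw [map_smul, smul_mul_assoc, smul_mul_assoc, Matrix.trace_smul, Matrix.trace_smul, smul_eq_mul,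
    smul_eq_mul]
  ring

theorem bf_pos (h : RLie.Dat m N) {x : Matrix (Fin n) (Fin n) ℝ} (hx : x ∈ m) (h0 : x ≠ 0) :
    0 < bf N x x := by
  rw [bf_eq]
  have := h.pos x hx h0
  linarith

/-- The brackets of two elements of the noncompact part are in the compact part. -/
theorem pp (h : RLie.Dat m N) {X Y : Matrix (Fin n) (Fin n) ℝ} (hX : X ∈ m) (hY : Y ∈ m)
    (hX2 : RLie.br N (RLie.br N X) = (-4 : ℝ) • X) (hY2 : RLie.br N (RLie.br N Y) = (-4 : ℝ) • Y) :
    RLie.br N (RLie.br X Y) = 0 := by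
  set z := RLie.br X Y with hz
  set z' := RLie.br (RLie.br N X) (RLie.br N Y) with hz'
  have hzm : z ∈ m := h.br X hX Y hY
  have e1 : RLie.br N z = RLie.br (RLie.br N X) Y + RLie.br X (RLie.br N Y) := by
    rw [hz, RLie.jac]
  have e2 : RLie.br N (RLie.br N z) = (-8 : ℝ) • z + (2 : ℝ) • z' := by
    rw [e1, map_add, RLie.jac N (RLie.br N X) Y, RLie.jac N X (RLie.br N Y), hX2, hY2,
      LinearMap.map_smul₂, map_smul, ← hz, ← hz']
    module
  have e3 : RLie.br N z' = (-4 : ℝ) • RLie.br X (RLie.br N Y) +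
      (-4 : ℝ) • RLie.br (RLie.br N X) Y := by
    rw [hz', RLie.jac, hX2, hY2, LinearMap.map_smul₂, map_smul]
  have e4 : RLie.br N z' = (-4 : ℝ) • RLie.br N z := by
    rw [e3, e1]
    module
  have e5 := h.cub z hzm
  -- `D^3 z = -8 D z + 2 D z' = -16 D z`
  have e6 : RLie.br N (RLie.br N (RLie.br N z)) = (-16 : ℝ) • RLie.br N z := by
    rw [e2, map_add, map_smul, map_smul, e4]
    module
  rw [e6] at e5
  have e7 : (-12 : ℝ) • RLie.br N z = 0 := by
    have : (-12 : ℝ) • RLie.br N z = (-16 : ℝ) • RLie.br N z - (-4 : ℝ) • RLie.br N z := by module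
    rw [this, e5, sub_self]
  exact (smul_eq_zero.1 e7).resolve_left (by norm_num)

/-- The commutator with an element of the noncompact part is symmetric. -/
theorem ad_symm (h : RLie.Dat m N) {X x y : Matrix (Fin n) (Fin n) ℝ} (hX : X ∈ m)
    (hX2 : RLie.br N (RLie.br N X) = (-4 : ℝ) • X) (hx : x ∈ m) (hy : y ∈ m) :
    bf N (RLie.br X x) y = bf N x (RLie.br X y) := by
  have h1 : RLie.br N (RLie.br X (RLie.br N x)) = 0 :=
    pp h hX (h.br _ h.mem _ hx) hX2 (by rw [h.cub x hx])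
  have h2 : RLie.br (RLie.br N X) (RLie.br N x) = -RLie.br X (RLie.br N (RLie.br N x)) := by
    rw [RLie.jac] at h1
    exact eq_neg_of_add_eq_zero_left h1
  have h3 : RLie.br X x + (1 / 2 : ℝ) • RLie.br N (RLie.br N (RLie.br X x)) =
      -RLie.br X (x + (1 / 2 : ℝ) • RLie.br N (RLie.br N x)) := by
    rw [RLie.jac N X x, map_add, RLie.jac N (RLie.br N X) x, RLie.jac N X (RLie.br N x), hX2, h2,
      LinearMap.map_smul₂, map_add, map_smul]
    module
  rw [bf_eq, bf_eq, h3, neg_mul, Matrix.trace_neg, neg_neg, RLie.br_anti X, neg_mul,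
    Matrix.trace_neg, RLie.tr_br]

/-- The square of the commutator, on `m`. -/
noncomputable def sq (h : RLie.Dat m N) {X : Matrix (Fin n) (Fin n) ℝ} (hX : X ∈ m) :
    Module.End ℝ m :=
  ((RLie.br X).comp (RLie.br X)).restrict fun v hv => h.br X hX _ (h.br X hX v hv)

theorem sq_coe (h : RLie.Dat m N) {X : Matrix (Fin n) (Fin n) ℝ} (hX : X ∈ m) (v : m) :
    ((sq h hX v : m) : Matrix (Fin n) (Fin n) ℝ) = RLie.br X (RLie.br X v) := rfl

/-- The inner product. -/
@[instance_reducible] noncomputable def ipc (h : RLie.Dat m N) : InnerProductSpace.Core ℝ m where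
  inner x y := bf N x y
  conj_inner_symm x y := by
    change (starRingEnd ℝ) (bf N y x) = bf N x y
    rw [starRingEnd_apply, star_trivial, bf_symm]
  re_inner_nonneg x := by
    rw [RCLike.re_to_real]
    by_cases h0 : (x : Matrix (Fin n) (Fin n) ℝ) = 0
    · rw [h0]
      unfold bf
      simp
    · exact (bf_pos h x.2 h0).le
  add_left x y z := bf_add _ _ _
  smul_left x y c := by
    change bf N (c • (x : Matrix (Fin n) (Fin n) ℝ)) y = (starRingEnd ℝ) c * bf N x y
    rw [starRingEnd_apply, star_trivial, bf_smul]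
  definite x hx := by
    by_contra h0
    have h1 : (x : Matrix (Fin n) (Fin n) ℝ) ≠ 0 := fun h2 => h0 (Subtype.ext h2)
    have h2 := bf_pos h x.2 h1
    have h3 : bf N x x = 0 := hx
    linarith

/-- The eigenvalues of the square on its image are positive. -/
theorem exists_eig (h : RLie.Dat m N) {X : Matrix (Fin n) (Fin n) ℝ} (hX : X ∈ m)
    (hX2 : RLie.br N (RLie.br N X) = (-4 : ℝ) • X) {K : Submodule ℝ m}
    (hK : ∀ v ∈ K, sq h hX v ∈ K) (hK0 : K ≠ ⊥) (hKr : K ≤ LinearMap.range (sq h hX)) :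
    ∃ μ : ℝ, 0 < μ ∧ ∃ v ∈ K, v ≠ 0 ∧ sq h hX v = μ • v := by
  let c := ipc h
  let _ : NormedAddCommGroup m := c.toNormedAddCommGroup
  let _ : InnerProductSpace ℝ m := InnerProductSpace.ofCore c.toCore
  have hin : ∀ x y : m, inner ℝ x y = bf N x y := fun _ _ => rfl
  have hsy : ∀ x y : m, bf N (sq h hX x : m) y = bf N x (sq h hX y : m) := by
    intro x y
    rw [sq_coe, sq_coe, ad_symm h hX hX2 (h.br X hX _ x.2) y.2,
      ad_symm h hX hX2 x.2 (h.br X hX _ y.2)]
  have : Nontrivial K := Submodule.nontrivial_iff_ne_bot.2 hK0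
  let T : K →ₗ[ℝ] K := (sq h hX).restrict hK
  have hT : T.IsSymmetric := by
    intro x y
    change inner ℝ ((T x : K) : m) (y : m) = inner ℝ (x : m) ((T y : K) : m)
    rw [hin, hin]
    exact hsy x y
  have h1 := hT.hasEigenvalue_iSup_of_finiteDimensional
  obtain ⟨v, hv⟩ := h1.exists_hasEigenvector
  set μ : ℝ := (⨆ x : { x : K // x ≠ 0 }, RCLike.re (inner ℝ (T x) (x : K)) / ‖(x : K)‖ ^ 2 : ℝ)
  have h2 : sq h hX (v : m) = μ • (v : m) := by
    have h3 := hv.apply_eq_smul
    exact congrArg (fun y : K => (y : m)) h3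
  have hv0 : (v : m) ≠ 0 := fun h0 => hv.2 (Subtype.ext h0)
  have hv0' : ((v : m) : Matrix (Fin n) (Fin n) ℝ) ≠ 0 := fun h0 => hv0 (Subtype.ext h0)
  have h4 := bf_pos h (v : m).2 hv0'
  have h5 : 0 ≤ bf N (sq h hX (v : m) : m) (v : m) := by
    rw [sq_coe, ad_symm h hX hX2 (h.br X hX _ (v : m).2) (v : m).2]
    by_cases h6 : RLie.br X ((v : m) : Matrix (Fin n) (Fin n) ℝ) = 0
    · rw [h6]
      unfold bf
      simp
    · exact (bf_pos h (h.br X hX _ (v : m).2) h6).le
  rw [h2, Submodule.coe_smul, bf_smul] at h5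
  have h6 : 0 ≤ μ := by
    by_contra hcon
    push Not at hcon
    have := mul_neg_of_neg_of_pos hcon h4
    linarith
  refine ⟨μ, lt_of_le_of_ne h6 fun h7 => ?_, v, v.2, hv0, h2⟩
  obtain ⟨u, hu⟩ := hKr v.2
  rw [← h7, zero_smul] at h2
  have h8 : bf N (v : m) (v : m) = 0 := by
    have h9 := hsy u (v : m)
    rw [hu, h2] at h9
    rw [h9]
    unfold bf
    simp
  linarith

/-- A polynomial without positive roots is invertible on the image of the square. -/
theorem exists_poly (h : RLie.Dat m N) {X : Matrix (Fin n) (Fin n) ℝ} (hX : X ∈ m)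
    (hX2 : RLie.br N (RLie.br N X) = (-4 : ℝ) • X) {f : ℝ[X]} (hf : ∀ μ : ℝ, 0 < μ → f.eval μ ≠ 0)
    (v : m) : ∃ q : ℝ[X], aeval (sq h hX) (q * f) v = sq h hX v := by
  set S := sq h hX with hS
  let φ : ℝ[X] →ₗ[ℝ] m :=
    { toFun := fun q => aeval S (q * Polynomial.X) v
      map_add' := fun p q => by rw [add_mul, map_add, LinearMap.add_apply]
      map_smul' := fun c q => by
        rw [RingHom.id_apply, smul_mul_assoc, map_smul, LinearMap.smul_apply] }
  have hφ : ∀ q, φ q = aeval S (q * Polynomial.X) v := fun _ => rfl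
  let C : Submodule ℝ m := LinearMap.range φ
  have hC : ∀ p : ℝ[X], ∀ c ∈ C, aeval S p c ∈ C := by
    rintro p _ ⟨q, rfl⟩
    refine ⟨p * q, ?_⟩
    rw [hφ, hφ, mul_assoc, map_mul, Module.End.mul_apply]
  have hCr : C ≤ LinearMap.range S := by
    rintro _ ⟨q, rfl⟩
    refine ⟨aeval S q v, ?_⟩
    rw [hφ, mul_comm, map_mul, aeval_X, Module.End.mul_apply]
  let T : C →ₗ[ℝ] C := (aeval S f).restrict (hC f)
  have hinj : LinearMap.ker T = ⊥ := by
    rw [Submodule.eq_bot_iff]
    intro c hc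
    by_contra hc0
    have hc1 : aeval S f (c : m) = 0 := by
      have := congrArg (fun y : C => (y : m)) (LinearMap.mem_ker.1 hc)
      exact this
    let K : Submodule ℝ m := LinearMap.ker (aeval S f) ⊓ C
    have hKS : ∀ v ∈ K, S v ∈ K := by
      rintro v ⟨hv1, hv2⟩
      refine ⟨?_, ?_⟩
      · change aeval S f (S v) = 0
        have h1 : aeval S f (S v) = S (aeval S f v) := by
          have h3 : Commute (aeval S f) S := by
            have h4 : Commute (aeval S f) (aeval S (Polynomial.X : ℝ[X])) :=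
              (Commute.all f Polynomial.X).map (aeval S)
            rwa [aeval_X] at h4
          have h5 := LinearMap.congr_fun h3.eq v
          rwa [Module.End.mul_apply, Module.End.mul_apply] at h5
        have h5 : aeval S f v = 0 := hv1
        rw [h1, h5, map_zero]
      · have := hC Polynomial.X v hv2
        rwa [aeval_X] at this
    have hK0 : K ≠ ⊥ := by
      intro h0
      have h1 : (c : m) ∈ K := ⟨hc1, c.2⟩
      rw [h0, Submodule.mem_bot] at h1
      exact hc0 (Subtype.ext h1)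
    obtain ⟨μ, hμ, w, hw, hw0, hw1⟩ := exists_eig h hX hX2 (K := K) hKS hK0
      (inf_le_right.trans hCr)
    have h2 : aeval S f w = f.eval μ • w := by
      have h3 : Module.End.HasEigenvector S μ w :=
        ⟨Module.End.mem_eigenspace_iff.2 hw1, hw0⟩
      exact Module.End.aeval_apply_of_hasEigenvector h3
    have h4 : aeval S f w = 0 := hw.1
    rw [h4] at h2
    exact hf μ hμ ((smul_eq_zero.1 h2.symm).resolve_right hw0)
  have hfin : FiniteDimensional ℝ C := inferInstance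
  have hsurj : LinearMap.range T = ⊤ := by
    have := @LinearMap.ker_eq_bot_iff_range_eq_top ℝ C _ _ _ hfin T
    exact this.1 hinj
  obtain ⟨c, hc⟩ : (⟨S v, 1, by rw [hφ, one_mul, aeval_X]⟩ : C) ∈ LinearMap.range T := by
    rw [hsurj]
    exact Submodule.mem_top
  obtain ⟨q, hq⟩ := c.2
  refine ⟨q * Polynomial.X, ?_⟩
  have h1 : aeval S f (c : m) = S v := congrArg (fun y : C => (y : m)) hc
  rw [← h1, ← hq, hφ, ← Module.End.mul_apply, ← map_mul, mul_comm f]

section general

variable {V : Type} [AddCommGroup V] [Module ℝ V]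

theorem aeval_restrict (T : Module.End ℝ V) {W : Submodule ℝ V} (hW : ∀ v ∈ W, T v ∈ W)
    (p : ℝ[X]) : ∀ v : W, ((aeval (T.restrict hW) p v : W) : V) = aeval T p v := by
  induction p using Polynomial.induction_on' with
  | add p q hp hq =>
    intro v
    rw [map_add, map_add, LinearMap.add_apply, LinearMap.add_apply, ← hp, ← hq]
    rfl
  | monomial j t =>
    intro v
    rw [aeval_monomial, aeval_monomial]
    have h1 : ∀ j : ℕ, ∀ v : W, (((T.restrict hW ^ j) v : W) : V) = (T ^ j) (v : V) := by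
      intro j
      induction j with
      | zero => intro v; rfl
      | succ j ih =>
        intro v
        rw [pow_succ, pow_succ, Module.End.mul_apply, Module.End.mul_apply, ih]
        rfl
    rw [Module.End.mul_apply, Module.End.mul_apply, ← h1]
    rfl

theorem aeval_mem (T : Module.End ℝ V) {W : Submodule ℝ V} (hW : ∀ v ∈ W, T v ∈ W)
    (p : ℝ[X]) {v : V} (hv : v ∈ W) : aeval T p v ∈ W := by
  have h1 := aeval_restrict T hW p ⟨v, hv⟩
  rw [← h1]
  exact (aeval (T.restrict hW) p ⟨v, hv⟩).2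

theorem aeval_congr (S T : Module.End ℝ V) {W : Submodule ℝ V} (hS : ∀ v ∈ W, S v ∈ W)
    (hST : ∀ v ∈ W, S v = T v) (p : ℝ[X]) {v : V} (hv : v ∈ W) : aeval S p v = aeval T p v := by
  have hT : ∀ v ∈ W, T v ∈ W := fun v hv => by rw [← hST v hv]; exact hS v hv
  have h1 : S.restrict hS = T.restrict hT := by
    refine LinearMap.ext fun w => Subtype.ext ?_
    exact hST w w.2
  have h2 := aeval_restrict S hS p ⟨v, hv⟩
  have h3 := aeval_restrict T hT p ⟨v, hv⟩
  rw [h1] at h2
  exact h2.symm.trans h3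

end general

/-- The orthogonal complement for the trace form. -/
def perp (𝔫 : Submodule ℝ (Matrix (Fin n) (Fin n) ℝ)) : Submodule ℝ (Matrix (Fin n) (Fin n) ℝ) where
  carrier := {x | ∀ y ∈ 𝔫, (x * y).trace = 0}
  zero_mem' := fun y _ => by rw [zero_mul, Matrix.trace_zero]
  add_mem' := fun {a b} ha hb y hy => by
    rw [add_mul, Matrix.trace_add, ha y hy, hb y hy, add_zero]
  smul_mem' := fun c a ha y hy => by
    rw [smul_mul_assoc, Matrix.trace_smul, ha y hy, smul_zero]

theorem perp_br {𝔫 : Submodule ℝ (Matrix (Fin n) (Fin n) ℝ)}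
    (hni : ∀ x ∈ m, ∀ z ∈ 𝔫, RLie.br x z ∈ 𝔫) {x z : Matrix (Fin n) (Fin n) ℝ} (hx : x ∈ m)
    (hz : z ∈ perp 𝔫) : RLie.br x z ∈ perp 𝔫 := by
  intro y hy
  rw [RLie.br_anti, neg_mul, Matrix.trace_neg, RLie.tr_br, hz _ (hni x hx y hy), neg_zero]

/-- **Lemma R.** A subalgebra which projects onto the noncompact part contains the complex
structure. -/
theorem mem_of_sup (h : RLie.Dat m N) {e 𝔫 : Submodule ℝ (Matrix (Fin n) (Fin n) ℝ)} (hem : e ≤ m)
    (heb : ∀ x ∈ e, ∀ y ∈ e, RLie.br x y ∈ e) (hnm : 𝔫 ≤ m)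
    (hni : ∀ x ∈ m, ∀ z ∈ 𝔫, RLie.br x z ∈ 𝔫) (hnN : ∀ z ∈ 𝔫, RLie.br N z = 0)
    (hsup : m ≤ e ⊔ 𝔫) : N ∈ e := by
  -- elements of `𝔫` commute with the noncompact part
  have hcomm : ∀ X ∈ m, RLie.br N (RLie.br N X) = (-4 : ℝ) • X → ∀ k ∈ 𝔫, RLie.br X k = 0 := by
    intro X hX hX2 k hk
    have h1 : RLie.br X k ∈ 𝔫 := hni X hX k hk
    have h2 := hnN _ h1
    have h3 : RLie.br N (RLie.br N (RLie.br X k)) = (-4 : ℝ) • RLie.br X k := by
      rw [RLie.jac N X k, hnN k hk, map_zero, add_zero, RLie.jac N (RLie.br N X) k, hnN k hk,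
        map_zero, add_zero, hX2, LinearMap.map_smul₂]
    rw [h2, map_zero] at h3
    exact (smul_eq_zero.1 h3.symm).resolve_left (by norm_num)
  have hn0 : ∀ z ∈ 𝔫, z ∈ perp 𝔫 → z = 0 := by
    intro z hz hz'
    by_contra h0
    have h1 := h.negk (hnm hz) (hnN z hz) h0
    rw [hz' z hz] at h1
    exact lt_irrefl _ h1
  -- the squares are in `e`
  have key : ∀ X ∈ m, RLie.br N (RLie.br N X) = (-4 : ℝ) • X →
      RLie.br X (RLie.br X N) ∈ e ⊓ perp 𝔫 := by
    intro X hX hX2
    refine ⟨?_, fun y hy => ?_⟩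
    · obtain ⟨a, ha, b, hb, hab⟩ := Submodule.mem_sup.1 (hsup hX)
      obtain ⟨a', ha', b', hb', hab'⟩ := Submodule.mem_sup.1 (hsup h.mem)
      have hXb := hcomm X hX hX2 b hb
      have haX : a = X - b := by rw [← hab, add_sub_cancel_right]
      have haN : a' = N - b' := by rw [← hab', add_sub_cancel_right]
      let T : Module.End ℝ (Matrix (Fin n) (Fin n) ℝ) := (RLie.br a).comp (RLie.br a)
      let S : Module.End ℝ (Matrix (Fin n) (Fin n) ℝ) := (RLie.br X).comp (RLie.br X)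
      have hTe : ∀ v ∈ e, T v ∈ e := fun v hv => heb a ha _ (heb a ha v hv)
      have hTn1 : ∀ v ∈ 𝔫, RLie.br a v = -RLie.br b v := by
        intro v hv
        rw [haX, LinearMap.map_sub₂, hcomm X hX hX2 v hv, zero_sub]
      have hTn2 : ∀ v ∈ 𝔫, RLie.br a v ∈ 𝔫 := fun v hv => hni a (hem ha) v hv
      have hTn3 : ∀ v ∈ 𝔫, T v = RLie.br b (RLie.br b v) := by
        intro v hv
        change RLie.br a (RLie.br a v) = _
        rw [hTn1 _ (hTn2 v hv), hTn1 v hv, map_neg, neg_neg]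
      have hTn : ∀ v ∈ 𝔫, T v ∈ 𝔫 := fun v hv => hTn2 _ (hTn2 v hv)
      -- the centralizer of `b`
      let W : Submodule ℝ (Matrix (Fin n) (Fin n) ℝ) := LinearMap.ker (RLie.br b)
      have hbX : RLie.br b X = 0 := by rw [RLie.br_anti, hXb, neg_zero]
      have hW1 : ∀ v ∈ W, RLie.br X v ∈ W := by
        intro v hv
        change RLie.br b (RLie.br X v) = 0
        have hv' : RLie.br b v = 0 := hv
        rw [RLie.jac, hbX, LinearMap.map_zero₂, hv', map_zero, add_zero]
      have hW2 : ∀ v ∈ W, RLie.br a v = RLie.br X v := by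
        intro v hv
        have hv' : RLie.br b v = 0 := hv
        rw [haX, LinearMap.map_sub₂, hv', sub_zero]
      have hW3 : ∀ v ∈ W, S v ∈ W := fun v hv => hW1 _ (hW1 v hv)
      have hW4 : ∀ v ∈ W, S v = T v := by
        intro v hv
        change RLie.br X (RLie.br X v) = RLie.br a (RLie.br a v)
        rw [hW2 v hv, hW2 _ (hW1 v hv)]
      have hNW : N ∈ W := by
        change RLie.br b N = 0
        rw [RLie.br_anti, hnN b hb, neg_zero]
      -- the polynomial
      let T' : Module.End ℝ 𝔫 := T.restrict hTn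
      have hf : ∀ μ : ℝ, 0 < μ → (minpoly ℝ T').eval μ ≠ 0 := by
        intro μ hμ hroot
        have h1 : T'.HasEigenvalue μ := Module.End.hasEigenvalue_of_isRoot hroot
        obtain ⟨v, hv⟩ := h1.exists_hasEigenvector
        have h2 : T v = μ • (v : Matrix (Fin n) (Fin n) ℝ) := by
          have h3 := hv.apply_eq_smul
          exact congrArg (fun y : 𝔫 => (y : Matrix (Fin n) (Fin n) ℝ)) h3
        rw [hTn3 v v.2] at h2
        have hv0 : (v : Matrix (Fin n) (Fin n) ℝ) ≠ 0 := fun h0 => hv.2 (Subtype.ext h0)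
        have h3 : (RLie.br b (RLie.br b v) * (v : Matrix (Fin n) (Fin n) ℝ)).trace =
            -(RLie.br b v * RLie.br b v).trace := by
          rw [RLie.br_anti b (RLie.br b v), neg_mul, Matrix.trace_neg, RLie.tr_br]
        have hkv : RLie.br b v ∈ 𝔫 := hni b (hnm hb) v v.2
        have h4 := h.nonposk (hnm hkv) (hnN _ hkv)
        have h5 := h.negk (hnm v.2) (hnN _ v.2) hv0
        rw [h2, smul_mul_assoc, Matrix.trace_smul, smul_eq_mul] at h3
        have h6 : μ * ((v : Matrix (Fin n) (Fin n) ℝ) * v).trace < 0 :=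
          mul_neg_of_pos_of_neg hμ h5
        linarith
      obtain ⟨q, hq⟩ := exists_poly h hX hX2 hf ⟨N, h.mem⟩
      have h1 : aeval S (q * minpoly ℝ T') N = RLie.br X (RLie.br X N) := by
        have h2 := congrArg (fun y : m => (y : Matrix (Fin n) (Fin n) ℝ)) hq
        have h3 := aeval_restrict S (W := m) (fun v hv => h.br X hX _ (h.br X hX v hv))
          (q * minpoly ℝ T') ⟨N, h.mem⟩
        rw [← h3]
        exact h2
      have h2 : aeval T (q * minpoly ℝ T') N = RLie.br X (RLie.br X N) := by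
        rw [← h1, aeval_congr S T hW3 hW4 _ hNW]
      have h3 : aeval T (q * minpoly ℝ T') b' = 0 := by
        have h4 := aeval_restrict T hTn (q * minpoly ℝ T') ⟨b', hb'⟩
        rw [← h4]
        have h5 : aeval T' (q * minpoly ℝ T') = 0 := by
          rw [map_mul, minpoly.aeval ℝ T', mul_zero]
        change ((aeval T' (q * minpoly ℝ T') ⟨b', hb'⟩ : 𝔫) : Matrix (Fin n) (Fin n) ℝ) = 0
        rw [h5]
        rfl
      have h4 : aeval T (q * minpoly ℝ T') a' ∈ e := aeval_mem T hTe _ ha'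
      rw [haN, map_sub, h2, h3, sub_zero] at h4
      exact h4
    · rw [RLie.br_anti X (RLie.br X N), neg_mul, Matrix.trace_neg, RLie.tr_br,
        hcomm X hX hX2 y hy, mul_zero, Matrix.trace_zero, neg_zero]
  -- the ideal
  set 𝔞 : Submodule ℝ (Matrix (Fin n) (Fin n) ℝ) := e ⊓ perp 𝔫 with h𝔞
  have ham : 𝔞 ≤ m := fun x hx => hem hx.1
  have hai : ∀ x ∈ m, ∀ z ∈ 𝔞, RLie.br x z ∈ 𝔞 := by
    rintro x hx z ⟨hz1, hz2⟩
    refine ⟨?_, perp_br hni hx hz2⟩
    obtain ⟨a, ha, b, hb, rfl⟩ := Submodule.mem_sup.1 (hsup hx)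
    have h1 : RLie.br b z = 0 := by
      refine hn0 _ ?_ (perp_br hni (hnm hb) hz2)
      rw [RLie.br_anti]
      exact 𝔫.neg_mem (hni z (hem hz1) b hb)
    rw [LinearMap.map_add₂, h1, add_zero]
    exact heb a ha z hz1
  -- the orthogonal ideal
  have hpi : ∀ x ∈ m, ∀ z ∈ perp 𝔞, RLie.br x z ∈ perp 𝔞 := fun x hx z hz => perp_br hai hx hz
  have ha0 : ∀ x ∈ 𝔞, x ∈ perp 𝔞 → x = 0 := by
    intro x hx hx'
    by_contra h0
    have h1 := h.pos x (ham hx) h0
    have h2 : x + (1 / 2 : ℝ) • RLie.br N (RLie.br N x) ∈ 𝔞 :=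
      𝔞.add_mem hx (𝔞.smul_mem _ (hai _ h.mem _ (hai _ h.mem _ hx)))
    rw [Matrix.trace_mul_comm, hx' _ h2] at h1
    exact lt_irrefl _ h1
  have hpN : ∀ x ∈ m, x ∈ perp 𝔞 → RLie.br N x = 0 := by
    intro x hx hx'
    by_contra h0
    have hXm : RLie.br N x ∈ m := h.br _ h.mem _ hx
    have hXp : RLie.br N x ∈ perp 𝔞 := hpi _ h.mem _ hx'
    have h1 := h.posp hXm (h.cub x hx) h0
    have h2 := key _ hXm (h.cub x hx)
    have h3 : RLie.br (RLie.br N x) (RLie.br (RLie.br N x) N) ∈ perp 𝔞 := by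
      refine hpi _ hXm _ ?_
      rw [RLie.br_anti]
      exact (perp 𝔞).neg_mem (hpi _ h.mem _ hXp)
    have h4 := ha0 _ h2 h3
    have h5 : (RLie.br (RLie.br N x) (RLie.br (RLie.br N x) N) * N).trace =
        -4 * (RLie.br N x * RLie.br N x).trace := by
      rw [RLie.tr_br, RLie.br_anti (RLie.br (RLie.br N x) N) N, RLie.br_anti (RLie.br N x) N,
        map_neg, neg_neg, h.cub x hx, Matrix.mul_smul, Matrix.trace_smul, smul_eq_mul]
    rw [h4, zero_mul, Matrix.trace_zero] at h5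
    linarith
  -- the decomposition
  have hdec : ∀ x ∈ m, ∃ y ∈ 𝔞, ∃ z ∈ m, z ∈ perp 𝔞 ∧ x = y + z := by
    intro x hx
    let c := ipc h
    let _ : NormedAddCommGroup m := c.toNormedAddCommGroup
    let _ : InnerProductSpace ℝ m := InnerProductSpace.ofCore c.toCore
    have hin : ∀ x y : m, inner ℝ x y = bf N x y := fun _ _ => rfl
    obtain ⟨y, hy, z, hz, hyz⟩ := (𝔞.comap m.subtype).exists_add_mem_mem_orthogonal
      (⟨x, hx⟩ : m)
    refine ⟨y, hy, z, z.2, fun a ha => ?_, congrArg (fun y : m => (y : Matrix (Fin n) (Fin n) ℝ))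
      hyz⟩
    have h1 : a + (1 / 2 : ℝ) • RLie.br N (RLie.br N a) ∈ 𝔞 :=
      𝔞.add_mem ha (𝔞.smul_mem _ (hai _ h.mem _ (hai _ h.mem _ ha)))
    have h2 : inner ℝ (⟨_, ham h1⟩ : m) z = 0 :=
      (Submodule.mem_orthogonal _ _).1 hz ⟨_, ham h1⟩ h1
    rw [hin, bf_eq] at h2
    have h3 : a + (1 / 2 : ℝ) • RLie.br N (RLie.br N a) +
        (1 / 2 : ℝ) • RLie.br N (RLie.br N (a + (1 / 2 : ℝ) • RLie.br N (RLie.br N a))) = a := by
      have h4 : RLie.br N (RLie.br N (RLie.br N (RLie.br N a))) =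
          (-4 : ℝ) • RLie.br N (RLie.br N a) := by
        rw [h.cub _ (ham ha), map_smul]
      rw [map_add, map_add, map_smul, map_smul, h4]
      module
    rw [h3, neg_eq_zero, Matrix.trace_mul_comm] at h2
    exact h2
  obtain ⟨N1, hN1, N2, hN2m, hN2, hN12⟩ := hdec N h.mem
  have hN20 : N2 = 0 := by
    refine h.cen N2 hN2m fun y hy => ?_
    obtain ⟨y1, hy1, y2, hy2m, hy2, rfl⟩ := hdec y hy
    have h1 : RLie.br N2 y1 = 0 := by
      refine ha0 _ (hai _ hN2m _ hy1) ?_
      rw [RLie.br_anti]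
      exact (perp 𝔞).neg_mem (hpi _ (ham hy1) _ hN2)
    have h2 : RLie.br N1 y2 = 0 := by
      refine ha0 _ ?_ (hpi _ (ham hN1) _ hy2)
      rw [RLie.br_anti]
      exact 𝔞.neg_mem (hai _ hy2m _ hN1)
    have h3 : RLie.br N2 y2 = 0 := by
      have h4 : N2 = N - N1 := eq_sub_of_add_eq (by rw [add_comm]; exact hN12.symm)
      rw [h4, LinearMap.map_sub₂, h2, hpN y2 hy2m hy2, sub_zero]
    rw [map_add, h1, h3, add_zero]
  rw [hN12, hN20, add_zero]
  exact hN1.1

end Pool.Agent.N113.BT
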