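import Pool.Agent.N208.AM.MainB
import Pool.Agent.N113.BT.RL

set_option autoImplicit false
set_option linter.unusedSectionVars false
set_option linter.unusedVariables false

/-!
# Motives whose Mumford-Tate domain is the domain of a rigid part of an abelian variety
-/

open Module Function TensorProduct Matrix

noncomputable section

namespace Pool.Agent.N113.BT

open Pool.Agent.Y102 Pool.Agent.W516.DR Pool.Agent.H204R3.GP Pool.Agent.W516.KC
  Pool.Agent.H204R3.SP Pool.Agent.TH119.MX Pool.Agent.R917 Pool.Agent.N208.AM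

variable {g : ℕ} {A : AbVar g} {s n : ℕ} {r : Fin s → ℕ} {B : Fin n → Ten A r} {w : Fin s → ℤ}
  {P : Matrix (Fin n) (Fin n) ℂ} {Wt : Matrix (Fin n) (Fin n) ℚ}
  {H : Set (Matrix (Fin n) (Fin n) ℂ)} {N : Matrix (Fin n) (Fin n) ℝ}

/-- A rigid part of the first homology: `e` is the projector, `S` is the Lie algebra which acts. -/
structure RigPart (A : AbVar g) (e : Module.End ℂ (ℂ ⊗[ℚ] A.H1))
    (S : Submodule ℂ (Module.End ℂ (ℂ ⊗[ℚ] A.H1))) : Prop where
  comm : ∀ x ∈ cx A.NA, e * x = x * e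
  idem : e * e = e
  sid : ∀ z ∈ S, e * z = z ∧ z * e = z
  sbr : ∀ x ∈ S, ∀ y ∈ S, x * y - y * x ∈ S
  le : ∀ x ∈ cx A.NA, ∃ c : ℂ, e * x + c • e ∈ S
  gen : ∀ z ∈ S, ∃ y ∈ Algebra.adjoin ℂ (cx A.NA : Set (Module.End ℂ (ℂ ⊗[ℚ] A.H1))), z = e * y
  rig : ∀ L ≤ S, (∀ x ∈ L, ∀ y ∈ L, x * y - y * x ∈ L) →
    (∀ z ∈ S, ∃ y ∈ Algebra.adjoin ℂ (L : Set (Module.End ℂ (ℂ ⊗[ℚ] A.H1))), z = e * y) → S ≤ L

variable {e : Module.End ℂ (ℂ ⊗[ℚ] A.H1)} {S : Submodule ℂ (Module.End ℂ (ℂ ⊗[ℚ] A.H1))}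

/-- The elements given by a subalgebra. -/
def LL (e : Module.End ℂ (ℂ ⊗[ℚ] A.H1)) (S : Submodule ℂ (Module.End ℂ (ℂ ⊗[ℚ] A.H1)))
    (𝔮 : Submodule ℚ (Module.End ℚ A.H1)) : Submodule ℂ (Module.End ℂ (ℂ ⊗[ℚ] A.H1)) where
  carrier := {z | z ∈ S ∧ ∃ x ∈ cx 𝔮, ∃ c : ℂ, z = e * x + c • e}
  zero_mem' := ⟨S.zero_mem, 0, Submodule.zero_mem _, 0, by rw [mul_zero, zero_smul, add_zero]⟩
  add_mem' := by
    rintro _ _ ⟨h1, x, hx, c, rfl⟩ ⟨h2, y, hy, d, rfl⟩
    exact ⟨S.add_mem h1 h2, x + y, Submodule.add_mem _ hx hy, c + d, by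
      rw [mul_add, add_smul]; abel⟩
  smul_mem' := by
    rintro t _ ⟨h1, x, hx, c, rfl⟩
    exact ⟨S.smul_mem t h1, t • x, Submodule.smul_mem _ t hx, t * c, by
      rw [mul_smul_comm, smul_add, smul_smul]⟩

/-- **The projection of a full subalgebra.** -/
theorem RigPart.surj (hr : RigPart A e S) {𝔮 : Submodule ℚ (Module.End ℚ A.H1)}
    (h : A.Full 𝔮) : ∀ z ∈ S, ∃ x ∈ cx 𝔮, ∃ c : ℂ, z = e * x + c • e := by
  have hc : ∀ x ∈ cx 𝔮, e * x = x * e := fun x hx => hr.comm x (cx_mono h.le hx)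
  have key : S ≤ LL e S 𝔮 := by
    refine hr.rig _ (fun z hz => hz.1) ?_ ?_
    · rintro _ ⟨h1, x, hx, c, rfl⟩ _ ⟨h2, y, hy, d, rfl⟩
      refine ⟨hr.sbr _ h1 _ h2, x * y - y * x, h.cx_br' x hx y hy, 0, ?_⟩
      have e1 : ∀ x y : Module.End ℂ (ℂ ⊗[ℚ] A.H1), e * x = x * e → e * y = y * e →
          (e * x) * (e * y) = e * (x * y) := by
        intro x y hx hy
        calc (e * x) * (e * y) = e * (x * e) * y := by simp only [mul_assoc]
          _ = e * e * (x * y) := by rw [← hx]; simp only [mul_assoc]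
          _ = e * (x * y) := by rw [hr.idem]
      have e2 : e * x * e = e * x := by rw [mul_assoc, ← hc x hx, ← mul_assoc, hr.idem]
      have e3 : e * y * e = e * y := by rw [mul_assoc, ← hc y hy, ← mul_assoc, hr.idem]
      have e4 : e * (e * y) = e * y := by rw [← mul_assoc, hr.idem]
      have e5 : e * (e * x) = e * x := by rw [← mul_assoc, hr.idem]
      have e6 := e1 x y (hc x hx) (hc y hy)
      have e7 := e1 y x (hc y hy) (hc x hx)
      rw [add_mul, mul_add, mul_add, add_mul, mul_add, mul_add, e6, e7]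
      simp only [smul_mul_assoc, mul_smul_comm, e2, e3, e4, e5, hr.idem, mul_sub, zero_smul]
      module
    · intro z hz
      obtain ⟨y, hy, rfl⟩ := hr.gen z hz
      have h1 : y ∈ Algebra.adjoin ℂ (cx 𝔮 : Set (Module.End ℂ (ℂ ⊗[ℚ] A.H1))) := by
        have h2 : Algebra.adjoin ℂ (cx A.NA : Set (Module.End ℂ (ℂ ⊗[ℚ] A.H1))) ≤
            Algebra.adjoin ℂ (cx 𝔮 : Set (Module.End ℂ (ℂ ⊗[ℚ] A.H1))) :=
          Algebra.adjoin_le fun x hx => h.cx_adjoin x hx
        exact h2 hy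
      have key : ∀ y ∈ Algebra.adjoin ℂ (cx 𝔮 : Set (Module.End ℂ (ℂ ⊗[ℚ] A.H1))),
          e * y = y * e ∧ ∃ y' ∈ Algebra.adjoin ℂ (LL e S 𝔮 : Set (Module.End ℂ (ℂ ⊗[ℚ] A.H1))),
            e * y' = y' * e ∧ e * y = e * y' := by
        intro y hy
        induction hy using Algebra.adjoin_induction with
        | mem y hy =>
          refine ⟨hc y hy, ?_⟩
          obtain ⟨c, hcS⟩ := hr.le y (cx_mono h.le hy)
          have h3 : e * y + c • e ∈ LL e S 𝔮 := ⟨hcS, y, hy, c, rfl⟩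
          have h4 := hr.sid _ hcS
          refine ⟨(e * y + c • e) - algebraMap ℂ _ c, Subalgebra.sub_mem _
            (Algebra.subset_adjoin h3) (Subalgebra.algebraMap_mem _ c), ?_, ?_⟩
          · rw [mul_sub, sub_mul, h4.1, h4.2, Algebra.commutes]
          · rw [mul_sub, h4.1, Algebra.algebraMap_eq_smul_one, mul_smul_comm, mul_one,
              add_sub_cancel_right]
        | algebraMap c =>
          exact ⟨(Algebra.commutes c e).symm, algebraMap ℂ _ c, Subalgebra.algebraMap_mem _ c,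
            (Algebra.commutes c e).symm, rfl⟩
        | add a b _ _ ha hb =>
          obtain ⟨h1, a', ha', h2, h3⟩ := ha
          obtain ⟨h4, b', hb', h5, h6⟩ := hb
          exact ⟨by rw [mul_add, add_mul, h1, h4], a' + b', Subalgebra.add_mem _ ha' hb', by
            rw [mul_add, add_mul, h2, h5], by rw [mul_add, mul_add, h3, h6]⟩
        | mul a b _ _ ha hb =>
          obtain ⟨h1, a', ha', h2, h3⟩ := ha
          obtain ⟨h4, b', hb', h5, h6⟩ := hb
          refine ⟨by rw [← mul_assoc, h1, mul_assoc, h4, mul_assoc], a' * b',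
            Subalgebra.mul_mem _ ha' hb', by rw [← mul_assoc, h2, mul_assoc, h5, mul_assoc], ?_⟩
          rw [← mul_assoc, h1, mul_assoc, h6, ← mul_assoc, ← h1, h3, mul_assoc]
      obtain ⟨-, y', hy', -, h3⟩ := key y h1
      exact ⟨y', hy', h3⟩
  exact fun z hz => (key hz).2

/-- The derived algebras. -/
theorem RigPart.der (hr : RigPart A e S) {𝔮 : Submodule ℚ (Module.End ℚ A.H1)}
    (h : A.Full 𝔮) {X : Module.End ℚ A.H1} (hX : X ∈ der A.NA) :
    ∃ y ∈ cx (der 𝔮), e * X.baseChange ℂ = e * y := by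
  have hc : ∀ x ∈ cx 𝔮, e * x = x * e := fun x hx => hr.comm x (cx_mono h.le hx)
  induction hX using Submodule.span_induction with
  | mem X hX =>
    obtain ⟨X, hX, Y, hY, rfl⟩ := hX
    obtain ⟨c, hcx⟩ := hr.le _ (bc_mem hX)
    obtain ⟨d, hdx⟩ := hr.le _ (bc_mem hY)
    obtain ⟨x, hx, c', h1⟩ := hr.surj h _ hcx
    obtain ⟨y, hy, d', h2⟩ := hr.surj h _ hdx
    refine ⟨x * y - y * x, ?_, ?_⟩
    · refine cx_br (T := cx (Pool.Agent.Y102.der 𝔮)) (fun X hX Y hY => ?_) x hx y hy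
      rw [← bc_br]
      exact bc_mem (Submodule.subset_span ⟨X, hX, Y, hY, rfl⟩)
    · have e1 : ∀ x y : Module.End ℂ (ℂ ⊗[ℚ] A.H1), e * x = x * e → e * y = y * e →
          ∀ c d : ℂ, (e * x + c • e) * (e * y + d • e) - (e * y + d • e) * (e * x + c • e) =
            e * (x * y - y * x) := by
        intro x y hx hy c d
        have e2 : e * x * e = e * x := by rw [mul_assoc, ← hx, ← mul_assoc, hr.idem]
        have e3 : e * y * e = e * y := by rw [mul_assoc, ← hy, ← mul_assoc, hr.idem]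
        have e4 : e * (e * y) = e * y := by rw [← mul_assoc, hr.idem]
        have e5 : e * (e * x) = e * x := by rw [← mul_assoc, hr.idem]
        have e6 : (e * x) * (e * y) = e * (x * y) := by
          calc (e * x) * (e * y) = e * (x * e) * y := by simp only [mul_assoc]
            _ = e * e * (x * y) := by rw [← hx]; simp only [mul_assoc]
            _ = e * (x * y) := by rw [hr.idem]
        have e7 : (e * y) * (e * x) = e * (y * x) := by
          calc (e * y) * (e * x) = e * (y * e) * x := by simp only [mul_assoc]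
            _ = e * e * (y * x) := by rw [← hy]; simp only [mul_assoc]
            _ = e * (y * x) := by rw [hr.idem]
        rw [add_mul, mul_add, mul_add, add_mul, mul_add, mul_add, e6, e7]
        simp only [smul_mul_assoc, mul_smul_comm, e2, e3, e4, e5, hr.idem, mul_sub]
        module
      rw [bc_br, ← e1 _ _ (hr.comm _ (bc_mem hX)) (hr.comm _ (bc_mem hY)) c d, h1, h2,
        e1 _ _ (hc x hx) (hc y hy)]
  | zero => exact ⟨0, Submodule.zero_mem _, by rw [LinearMap.baseChange_zero]⟩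
  | add a b _ _ ha hb =>
    obtain ⟨x, hx, h1⟩ := ha
    obtain ⟨y, hy, h2⟩ := hb
    exact ⟨x + y, Submodule.add_mem _ hx hy, by rw [LinearMap.baseChange_add, mul_add, mul_add,
      h1, h2]⟩
  | smul c a _ ha =>
    obtain ⟨x, hx, h1⟩ := ha
    refine ⟨(c : ℂ) • x, Submodule.smul_mem _ _ hx, ?_⟩
    have h2 : (c • a).baseChange ℂ = (c : ℂ) • (a.baseChange ℂ : Module.End ℂ (ℂ ⊗[ℚ] A.H1)) := by
      rw [LinearMap.baseChange_smul]
      exact (Rat.cast_smul_eq_qsmul ℂ c _).symm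
    rw [h2, mul_smul_comm, mul_smul_comm, h1]

/-! ### The pairs -/

/-- The complex span of the actions on the homology and on the motive. -/
def pC (B : Fin n → Ten A r) (T : Submodule ℚ (Module.End ℚ A.H1)) :
    Submodule ℂ (Module.End ℂ (ℂ ⊗[ℚ] A.H1) × Matrix (Fin n) (Fin n) ℂ) :=
  Submodule.span ℂ {p | ∃ X ∈ T, ∃ M, Rel B X M ∧ p = (X.baseChange ℂ, cq M)}

theorem pC_mono {T T' : Submodule ℚ (Module.End ℚ A.H1)} (h : T ≤ T') : pC B T ≤ pC B T' := by
  refine Submodule.span_mono ?_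
  rintro _ ⟨X, hX, M, hM, rfl⟩
  exact ⟨X, h hX, M, hM, rfl⟩

/-- The real part. -/
abbrev reM (y : Matrix (Fin n) (Fin n) ℂ) : Matrix (Fin n) (Fin n) ℝ := y.map Complex.re

/-- The imaginary part. -/
abbrev imM (y : Matrix (Fin n) (Fin n) ℂ) : Matrix (Fin n) (Fin n) ℝ := y.map Complex.im

theorem reM_cq (M : Matrix (Fin n) (Fin n) ℚ) : reM (cq M) = rq M := by
  ext i j
  simp

theorem imM_cq (M : Matrix (Fin n) (Fin n) ℚ) : imM (cq M) = 0 := by
  ext i j
  simp

theorem reM_add (x y : Matrix (Fin n) (Fin n) ℂ) : reM (x + y) = reM x + reM y := by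
  ext i j
  simp

theorem reM_sub (x y : Matrix (Fin n) (Fin n) ℂ) : reM (x - y) = reM x - reM y := by
  ext i j
  simp

theorem imM_add (x y : Matrix (Fin n) (Fin n) ℂ) : imM (x + y) = imM x + imM y := by
  ext i j
  simp

theorem reM_smul (c : ℂ) (x : Matrix (Fin n) (Fin n) ℂ) :
    reM (c • x) = c.re • reM x - c.im • imM x := by
  ext i j
  simp

theorem imM_smul (c : ℂ) (x : Matrix (Fin n) (Fin n) ℂ) :
    imM (c • x) = c.re • imM x + c.im • reM x := by
  ext i j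
  simp

theorem reM_mul (x : Matrix (Fin n) (Fin n) ℂ) (N : Matrix (Fin n) (Fin n) ℝ) :
    reM (x * cxm N) = reM x * N := by
  ext i j
  simp [cxm, Matrix.mul_apply]

theorem reM_mul' (x : Matrix (Fin n) (Fin n) ℂ) (N : Matrix (Fin n) (Fin n) ℝ) :
    reM (cxm N * x) = N * reM x := by
  ext i j
  simp [cxm, Matrix.mul_apply]

theorem cxm_rq (M : Matrix (Fin n) (Fin n) ℚ) : cxm (rq M) = cq M := by
  ext i j
  simp [cxm]

/-- The matrices are in the real span. -/
theorem pC_re {T : Submodule ℚ (Module.End ℚ A.H1)}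
    {p : Module.End ℂ (ℂ ⊗[ℚ] A.H1) × Matrix (Fin n) (Fin n) ℂ} (hp : p ∈ pC B T) :
    reM p.2 ∈ spR B (T : Set (Module.End ℚ A.H1)) ∧
      imM p.2 ∈ spR B (T : Set (Module.End ℚ A.H1)) := by
  induction hp using Submodule.span_induction with
  | mem p hp =>
    obtain ⟨X, hX, M, hM, rfl⟩ := hp
    rw [reM_cq, imM_cq]
    exact ⟨mem_spR hX hM, Submodule.zero_mem _⟩
  | zero =>
    have h1 : reM (0 : Matrix (Fin n) (Fin n) ℂ) = 0 := by ext i j; simp
    have h2 : imM (0 : Matrix (Fin n) (Fin n) ℂ) = 0 := by ext i j; simp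
    change reM (0 : Matrix (Fin n) (Fin n) ℂ) ∈ _ ∧ imM (0 : Matrix (Fin n) (Fin n) ℂ) ∈ _
    rw [h1, h2]
    exact ⟨Submodule.zero_mem _, Submodule.zero_mem _⟩
  | add a b _ _ ha hb =>
    rw [Prod.snd_add, reM_add, imM_add]
    exact ⟨Submodule.add_mem _ ha.1 hb.1, Submodule.add_mem _ ha.2 hb.2⟩
  | smul c a _ ha =>
    rw [Prod.smul_snd, reM_smul, imM_smul]
    exact ⟨Submodule.sub_mem _ (Submodule.smul_mem _ _ ha.1) (Submodule.smul_mem _ _ ha.2),
      Submodule.add_mem _ (Submodule.smul_mem _ _ ha.2) (Submodule.smul_mem _ _ ha.1)⟩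

/-- Lifts to pairs. -/
theorem exists_pC (h : Mot w B P) {T : Submodule ℚ (Module.End ℚ A.H1)} (hT : T ≤ A.NA)
    {x : Module.End ℂ (ℂ ⊗[ℚ] A.H1)} (hx : x ∈ cx T) : ∃ y, (x, y) ∈ pC B T := by
  induction hx using Submodule.span_induction with
  | mem x hx =>
    obtain ⟨X, hX, rfl⟩ := hx
    obtain ⟨M, hM⟩ := h.st X (hT hX)
    exact ⟨cq M, Submodule.subset_span ⟨X, hX, M, hM, rfl⟩⟩
  | zero => exact ⟨0, Submodule.zero_mem _⟩
  | add a b _ _ ha hb =>
    obtain ⟨x, hx⟩ := ha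
    obtain ⟨y, hy⟩ := hb
    exact ⟨x + y, Submodule.add_mem _ hx hy⟩
  | smul c a _ ha =>
    obtain ⟨x, hx⟩ := ha
    exact ⟨c • x, Submodule.smul_mem _ c hx⟩

/-- The pairs are an ideal. -/
theorem pC_br (h : Mot w B P) {X : Module.End ℚ A.H1} (hX : X ∈ der A.NA)
    {M : Matrix (Fin n) (Fin n) ℚ} (hM : Rel B X M)
    {p : Module.End ℂ (ℂ ⊗[ℚ] A.H1) × Matrix (Fin n) (Fin n) ℂ} (hp : p ∈ pC B (der A.NA)) :
    (p.1 * X.baseChange ℂ - X.baseChange ℂ * p.1, cq M * p.2 - p.2 * cq M) ∈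
      pC B (der A.NA) := by
  induction hp using Submodule.span_induction with
  | mem p hp =>
    obtain ⟨X', hX', M', hM', rfl⟩ := hp
    refine Submodule.subset_span ⟨X' * X - X * X', Submodule.subset_span
      ⟨X', der_NA_le hX', X, der_NA_le hX, rfl⟩, M * M' - M' * M, hM'.br hM, ?_⟩
    rw [bc_br, cq_sub, cq_mul, cq_mul]
  | zero =>
    change ((0 : Module.End ℂ (ℂ ⊗[ℚ] A.H1)) * X.baseChange ℂ - X.baseChange ℂ * 0,
      cq M * (0 : Matrix (Fin n) (Fin n) ℂ) - 0 * cq M) ∈ _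
    rw [mul_zero, zero_mul, sub_zero, mul_zero, zero_mul, sub_zero]
    exact Submodule.zero_mem _
  | add a b _ _ ha hb =>
    have h1 := Submodule.add_mem _ ha hb
    convert h1 using 1
    refine Prod.ext ?_ ?_
    · change (a.1 + b.1) * X.baseChange ℂ - X.baseChange ℂ * (a.1 + b.1) =
        (a.1 * X.baseChange ℂ - X.baseChange ℂ * a.1) +
        (b.1 * X.baseChange ℂ - X.baseChange ℂ * b.1)
      rw [mul_add, add_mul]
      abel
    · change cq M * (a.2 + b.2) - (a.2 + b.2) * cq M =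
        (cq M * a.2 - a.2 * cq M) + (cq M * b.2 - b.2 * cq M)
      rw [mul_add, add_mul]
      abel
  | smul c a _ ha =>
    have h1 := Submodule.smul_mem _ c ha
    convert h1 using 1
    refine Prod.ext ?_ ?_
    · change (c • a.1) * X.baseChange ℂ - X.baseChange ℂ * (c • a.1) =
        c • (a.1 * X.baseChange ℂ - X.baseChange ℂ * a.1)
      rw [mul_smul_comm, smul_mul_assoc, smul_sub]
    · change cq M * (c • a.2) - (c • a.2) * cq M = c • (cq M * a.2 - a.2 * cq M)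
      rw [mul_smul_comm, smul_mul_assoc, smul_sub]

/-- The real matrices of the part which acts trivially on the summand. -/
def nK (B : Fin n → Ten A r) (e : Module.End ℂ (ℂ ⊗[ℚ] A.H1)) :
    Submodule ℝ (Matrix (Fin n) (Fin n) ℝ) where
  carrier := {z | ∃ p ∈ pC B (der A.NA), e * p.1 = 0 ∧ z = reM p.2}
  zero_mem' := ⟨0, Submodule.zero_mem _, by rw [Prod.fst_zero, mul_zero], by
    ext i j; simp⟩
  add_mem' := by
    rintro _ _ ⟨p, hp, h1, rfl⟩ ⟨q, hq, h2, rfl⟩
    exact ⟨p + q, Submodule.add_mem _ hp hq, by rw [Prod.fst_add, mul_add, h1, h2, add_zero], by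
      rw [Prod.snd_add, reM_add]⟩
  smul_mem' := by
    rintro c _ ⟨p, hp, h1, rfl⟩
    refine ⟨(c : ℂ) • p, Submodule.smul_mem _ _ hp, by
      rw [Prod.smul_fst, mul_smul_comm, h1, smul_zero], ?_⟩
    rw [Prod.smul_snd, reM_smul, Complex.ofReal_re, Complex.ofReal_im, zero_smul, sub_zero]

/-- **The complex structure is in the Lie algebra of the group**, up to the centre. -/
theorem N_mem' (h : Mot w B P) (hW : WRel w B Wt) (hH : PtM P H) (hr : RigPart A e S)
    (hN : RelR B AbVar.JJ N) {Nc Nd : Matrix (Fin n) (Fin n) ℝ}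
    (hNc : Nc ∈ spR B (cenA A : Set (Module.End ℚ A.H1)))
    (hNd : Nd ∈ spR B (der A.NA : Set (Module.End ℚ A.H1))) (hNe : N = Nc + Nd)
    (hα : ∀ p ∈ pC B (der A.NA), e * p.1 = 0 → p.2 * cxm N = cxm N * p.2) :
    Nd ∈ spR B (dq B Wt H : Set (Module.End ℚ A.H1)) := by
  have hq := qM_full h hW hH
  have hdN : dq B Wt H ≤ A.NA := fun Z hZ => (der_mem h hW hZ).1
  have hdd : dq B Wt H ≤ der A.NA := by
    unfold dq der
    exact Submodule.span_mono fun _ ⟨X, hX, Y, hY, e⟩ => ⟨X, hq.le hX, Y, hq.le hY, e⟩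
  have hdb : ∀ X ∈ dq B Wt H, ∀ Y ∈ dq B Wt H, X * Y - Y * X ∈ dq B Wt H := fun X hX Y hY =>
    Submodule.subset_span ⟨X, hq.der_le hX, Y, hq.der_le hY, rfl⟩
  have hle : spR B (der A.NA : Set (Module.End ℚ A.H1)) ≤
      spR B (A.NA : Set (Module.End ℚ A.H1)) := spR_mono der_NA_le
  have hnm : nK B e ≤ spR B (der A.NA : Set (Module.End ℚ A.H1)) := by
    rintro _ ⟨p, hp, -, rfl⟩
    exact (pC_re hp).1
  refine mem_of_sup (dat h hN hNc hNd hNe) (spR_mono hdd) (spR_br hdb) hnm ?_ ?_ ?_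
  · rintro x hx z ⟨p, hp, h1, rfl⟩
    induction hx using Submodule.span_induction with
    | mem x hx =>
      obtain ⟨X, hX, M, hM, rfl⟩ := hx
      refine ⟨_, pC_br h hX hM hp, ?_, ?_⟩
      · change e * (p.1 * X.baseChange ℂ - X.baseChange ℂ * p.1) = 0
        rw [mul_sub, ← mul_assoc, h1, zero_mul, ← mul_assoc, hr.comm _ (bc_mem (der_NA_le hX)),
          mul_assoc, h1, mul_zero, sub_zero]
      · change _ = reM (cq M * p.2 - p.2 * cq M)
        rw [reM_sub, ← cxm_rq, reM_mul, reM_mul', RLie.br_apply]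
    | zero => rw [LinearMap.map_zero₂]; exact Submodule.zero_mem _
    | add a b _ _ ha hb => rw [LinearMap.map_add₂]; exact Submodule.add_mem _ ha hb
    | smul c a _ ha => rw [LinearMap.map_smul₂]; exact Submodule.smul_mem _ _ ha
  · intro z hz
    have h2 : RLie.br N z = 0 := by
      obtain ⟨p, hp, h1, rfl⟩ := hz
      have h3 := congrArg reM (hα p hp h1)
      rw [reM_mul, reM_mul'] at h3
      rw [RLie.br_apply, h3, sub_self]
    rw [hNe, LinearMap.map_add₂, cenA_br h hNc (hle (hnm hz)), zero_add] at h2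
    exact h2
  · rw [spR, Submodule.span_le]
    rintro _ ⟨X, hX, M, hM, rfl⟩
    obtain ⟨y, hy, h1⟩ := hr.der hq hX
    obtain ⟨y', hy'⟩ := exists_pC h hdN hy
    have h2 : ((X.baseChange ℂ : Module.End ℂ (ℂ ⊗[ℚ] A.H1)), cq M) ∈ pC B (der A.NA) :=
      Submodule.subset_span ⟨X, hX, M, hM, rfl⟩
    have h3 := Submodule.sub_mem _ h2 (pC_mono hdd hy')
    have h4 : rq M = reM y' + (rq M - reM y') := by abel
    change rq M ∈ _
    rw [h4]
    refine Submodule.add_mem_sup (pC_re hy').1 ⟨_, h3, ?_, ?_⟩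
    · change e * (X.baseChange ℂ - y) = 0
      rw [mul_sub, h1, sub_self]
    · change _ = reM (cq M - y')
      rw [reM_sub, reM_cq]

end Pool.Agent.N113.BT
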