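import Pool.Agent.N113.BT.Main

set_option autoImplicit false
set_option linter.unusedSectionVars false
set_option linter.unusedVariables false

/-!
# Rigid parts given by a direct summand
-/

open Module Function TensorProduct Matrix

noncomputable section

namespace Pool.Agent.N113.BT

section gen

variable {R R' : Type} [Ring R] [Algebra ℂ R] [Ring R'] [Algebra ℂ R']

/-- Rigid Lie algebras: a subalgebra which generates the same associative algebra is the whole Lie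
algebra. -/
def Rigid (S0 : Submodule ℂ R) : Prop :=
  ∀ 𝔥 ≤ S0, (∀ x ∈ 𝔥, ∀ y ∈ 𝔥, x * y - y * x ∈ 𝔥) →
    (∀ z ∈ S0, z ∈ Algebra.adjoin ℂ (𝔥 : Set R)) → S0 ≤ 𝔥

/-- The image of a rigid Lie algebra in a larger algebra. -/
theorem Rigid.map {S0 : Submodule ℂ R} (hr : Rigid S0) (ι : R →ₗ[ℂ] R') (hinj : Injective ι)
    (hmul : ∀ x y, ι (x * y) = ι x * ι y) (L : Submodule ℂ R') (hL : L ≤ S0.map ι)
    (hbr : ∀ x ∈ L, ∀ y ∈ L, x * y - y * x ∈ L)
    (hgen : ∀ z ∈ S0.map ι, ∃ y ∈ Algebra.adjoin ℂ (L : Set R'), z = ι 1 * y) :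
    S0.map ι ≤ L := by
  let 𝔥 : Submodule ℂ R := L.comap ι
  have hl : ∀ x, ι 1 * ι x = ι x := fun x => by rw [← hmul, one_mul]
  have hr' : ∀ x, ι x * ι 1 = ι x := fun x => by rw [← hmul, mul_one]
  have hlift : ∀ z ∈ L, ∃ x ∈ 𝔥, ι x = z := by
    intro z hz
    obtain ⟨x, hx, h1⟩ := hL hz
    refine ⟨x, ?_, h1⟩
    change ι x ∈ L
    rw [h1]
    exact hz
  have hadj : ∀ y ∈ Algebra.adjoin ℂ (L : Set R'), ι 1 * y = y * ι 1 ∧
      ∃ x ∈ Algebra.adjoin ℂ (𝔥 : Set R), ι x = ι 1 * y := by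
    intro y hy
    induction hy using Algebra.adjoin_induction with
    | mem y hy =>
      obtain ⟨x, hx, rfl⟩ := hlift y hy
      rw [hl, hr']
      exact ⟨rfl, x, Algebra.subset_adjoin hx, rfl⟩
    | algebraMap c =>
      refine ⟨(Algebra.commutes c _).symm, algebraMap ℂ _ c, Subalgebra.algebraMap_mem _ c, ?_⟩
      rw [Algebra.algebraMap_eq_smul_one, Algebra.algebraMap_eq_smul_one, map_smul,
        mul_smul_comm, mul_one]
    | add y y' _ _ hy hy' =>
      obtain ⟨h1, x, hx, h2⟩ := hy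
      obtain ⟨h3, x', hx', h4⟩ := hy'
      exact ⟨by rw [mul_add, add_mul, h1, h3], x + x', Subalgebra.add_mem _ hx hx', by
        rw [map_add, h2, h4, mul_add]⟩
    | mul y y' _ _ hy hy' =>
      obtain ⟨h1, x, hx, h2⟩ := hy
      obtain ⟨h3, x', hx', h4⟩ := hy'
      refine ⟨by rw [← mul_assoc, h1, mul_assoc, h3, mul_assoc], x * x',
        Subalgebra.mul_mem _ hx hx', ?_⟩
      rw [hmul, h2, h4, h1, mul_assoc, ← mul_assoc (ι 1) (ι 1) y', ← hmul, one_mul, ← mul_assoc,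
        ← h1, mul_assoc]
  have h𝔥 : S0 ≤ 𝔥 := by
    refine hr 𝔥 ?_ ?_ ?_
    · intro x hx
      obtain ⟨x', hx', h2⟩ := hL (show ι x ∈ L from hx)
      rw [← hinj h2]
      exact hx'
    · intro x hx y hy
      change ι (x * y - y * x) ∈ L
      rw [map_sub, hmul, hmul]
      exact hbr _ hx _ hy
    · intro x hx
      obtain ⟨y, hy, h1⟩ := hgen _ ⟨x, hx, rfl⟩
      obtain ⟨-, x', hx', h2⟩ := hadj y hy
      rw [← h1] at h2
      rw [← hinj h2]
      exact hx'
  rintro _ ⟨x, hx, rfl⟩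
  exact h𝔥 hx

end gen

section AV

open Pool.Agent.R918
open Pool.Agent.Y102 Pool.Agent.W516.DR Pool.Agent.H204R3.GP

variable {g d : ℕ} {A : AbVar g}
  {P : Matrix (Fin (2 * g)) (Fin d) ℂ} {Q : Matrix (Fin d) (Fin (2 * g)) ℂ}

/-- The embedding of the endomorphisms of the summand. -/
def io (P : Matrix (Fin (2 * g)) (Fin d) ℂ) (Q : Matrix (Fin d) (Fin (2 * g)) ℂ) :
    Matrix (Fin d) (Fin d) ℂ →ₗ[ℂ] Module.End ℂ (ℂ ⊗[ℚ] (Fin (2 * g) → ℚ)) where
  toFun z := matE (2 * g) (P * z * Q)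
  map_add' x y := by rw [Matrix.mul_add, Matrix.add_mul, map_add]
  map_smul' c x := by rw [Matrix.mul_smul, Matrix.smul_mul, map_smul, RingHom.id_apply]

theorem io_apply (z : Matrix (Fin d) (Fin d) ℂ) : io P Q z = matE (2 * g) (P * z * Q) := rfl

theorem io_one : io P Q 1 = matE (2 * g) (P * Q) := by
  rw [io_apply, Matrix.mul_one]

theorem io_mul (h : Q * P = 1) (x y : Matrix (Fin d) (Fin d) ℂ) :
    io P Q (x * y) = io P Q x * io P Q y := by
  rw [io_apply, io_apply, io_apply, ← map_mul]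
  congr 1
  rw [Matrix.mul_assoc (P * x) Q, ← Matrix.mul_assoc Q (P * y), ← Matrix.mul_assoc Q P, h,
    Matrix.one_mul, Matrix.mul_assoc P x, ← Matrix.mul_assoc x y, Matrix.mul_assoc P]

theorem io_inj (h : Q * P = 1) : Injective (io P Q) := by
  intro x y hxy
  have h1 : P * x * Q = P * y * Q := (matE (2 * g)).injective hxy
  have h2 : ∀ x : Matrix (Fin d) (Fin d) ℂ, Q * (P * x * Q) * P = x := by
    intro x
    rw [Matrix.mul_assoc P x, ← Matrix.mul_assoc Q P, h, Matrix.one_mul, Matrix.mul_assoc x Q, h,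
      Matrix.mul_one]
  rw [← h2 x, h1, h2]

/-- **The rigid part given by a direct summand.** -/
theorem rigPart_corner {S0 : Submodule ℂ (Matrix (Fin d) (Fin d) ℂ)} (hrig : Rigid S0)
    (hbr : ∀ x ∈ S0, ∀ y ∈ S0, x * y - y * x ∈ S0) (hQP : Q * P = 1)
    (hst : ∀ X ∈ A.NA, P * Q * toC X = toC X * (P * Q))
    (hle : ∀ X ∈ A.NA, ∃ c : ℂ, Q * toC X * P + c • 1 ∈ S0)
    (hgen : ∀ z ∈ S0, ∃ Y ∈ Algebra.adjoin ℂ (Submodule.span ℂ {Y | ∃ X ∈ A.NA, Y = toC X} :
        Set (Matrix (Fin (2 * g)) (Fin (2 * g)) ℂ)), z = Q * Y * P) :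
    RigPart A (matE (2 * g) (P * Q)) (S0.map (io P Q)) := by
  have hbc : ∀ X : Module.End ℚ A.H1, matE (2 * g) (toC X) = X.baseChange ℂ := fun X => matE_toC X
  have hidem : matE (2 * g) (P * Q) * matE (2 * g) (P * Q) = matE (2 * g) (P * Q) := by
    rw [← io_one, ← io_mul hQP, one_mul]
  have hadj : ∀ Y ∈ Algebra.adjoin ℂ (Submodule.span ℂ {Y | ∃ X ∈ A.NA, Y = toC X} :
      Set (Matrix (Fin (2 * g)) (Fin (2 * g)) ℂ)), P * Q * Y = Y * (P * Q) := by
    intro Y hY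
    induction hY using Algebra.adjoin_induction with
    | mem x hx =>
      induction hx using Submodule.span_induction with
      | mem x hx =>
        obtain ⟨X, hX, rfl⟩ := hx
        exact hst X hX
      | zero => rw [Matrix.mul_zero, Matrix.zero_mul]
      | add x y _ _ hx hy => rw [Matrix.mul_add, Matrix.add_mul, hx, hy]
      | smul c x _ hx => rw [Matrix.mul_smul, Matrix.smul_mul, hx]
    | algebraMap c => exact (Algebra.commutes c (P * Q)).symm
    | add x y _ _ hx hy => rw [Matrix.mul_add, Matrix.add_mul, hx, hy]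
    | mul x y _ _ hx hy =>
      rw [← Matrix.mul_assoc, hx, Matrix.mul_assoc, hy, Matrix.mul_assoc]
  have hcor : ∀ Y : Matrix (Fin (2 * g)) (Fin (2 * g)) ℂ, P * Q * Y = Y * (P * Q) →
      P * (Q * Y * P) * Q = P * Q * Y := by
    intro Y hY
    have e1 : P * (Q * Y * P) * Q = P * Q * (Y * (P * Q)) := by simp only [Matrix.mul_assoc]
    have e2 : P * Q * (P * Q * Y) = P * (Q * P) * Q * Y := by simp only [Matrix.mul_assoc]
    rw [e1, ← hY, e2, hQP, Matrix.mul_one]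
  refine ⟨?_, hidem, ?_, ?_, ?_, ?_, ?_⟩
  · refine cx_comm (T := matE (2 * g) (P * Q)) fun X hX => ?_
    rw [← hbc, ← map_mul, ← map_mul, hst X hX]
  · rintro _ ⟨z, hz, rfl⟩
    rw [← io_one, ← io_mul hQP, ← io_mul hQP, one_mul, mul_one]
    exact ⟨rfl, rfl⟩
  · rintro _ ⟨x, hx, rfl⟩ _ ⟨y, hy, rfl⟩
    rw [← io_mul hQP, ← io_mul hQP, ← map_sub]
    exact ⟨_, hbr _ hx _ hy, rfl⟩
  · intro x hx
    induction hx using Submodule.span_induction with
    | mem x hx =>
      obtain ⟨X, hX, rfl⟩ := hx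
      obtain ⟨c, hc⟩ := hle X hX
      refine ⟨c, _, hc, ?_⟩
      rw [map_add, map_smul, io_one, io_apply, ← hbc, ← map_mul, hcor _ (hst X hX)]
    | zero =>
      refine ⟨0, ?_⟩
      rw [mul_zero, zero_smul, add_zero]
      exact Submodule.zero_mem _
    | add x y _ _ hx hy =>
      obtain ⟨c, hc⟩ := hx
      obtain ⟨d, hd⟩ := hy
      refine ⟨c + d, ?_⟩
      have h1 := Submodule.add_mem _ hc hd
      convert h1 using 1
      rw [mul_add, add_smul]
      abel
    | smul t x _ hx =>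
      obtain ⟨c, hc⟩ := hx
      refine ⟨t * c, ?_⟩
      have h1 := Submodule.smul_mem _ t hc
      convert h1 using 1
      rw [mul_smul_comm, smul_add, smul_smul]
  · rintro _ ⟨z, hz, rfl⟩
    obtain ⟨Y, hY, rfl⟩ := hgen z hz
    refine ⟨matE (2 * g) Y, matE_adjoin _ hY, ?_⟩
    rw [io_apply, hcor _ (hadj Y hY), map_mul]
  · intro L hL hb hg
    rw [← io_one] at hg
    exact hrig.map (io P Q) (io_inj hQP) (io_mul hQP) L hL hb hg

end AV

end Pool.Agent.N113.BT
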