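import Pool.Agent.Y102.T4
import Pool.Agent.N113.BT.Der

set_option autoImplicit false
set_option linter.unusedSectionVars false
set_option linter.unusedVariables false

/-!
# Parts of type `A_1`
-/

open Module Function TensorProduct Matrix

noncomputable section

namespace Pool.Agent.N113.BT

open Pool.Agent.Y102 Pool.Agent.W516.DR Pool.Agent.H204R3.GP Pool.Agent.N208.AM

variable {g d : ℕ} {A : AbVar g}
  {P : Matrix (Fin (2 * g)) (Fin d) ℂ} {Q : Matrix (Fin d) (Fin (2 * g)) ℂ}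

/-- The compression to the summand. -/
def ka (P : Matrix (Fin (2 * g)) (Fin d) ℂ) (Q : Matrix (Fin d) (Fin (2 * g)) ℂ) :
    Module.End ℂ (ℂ ⊗[ℚ] (Fin (2 * g) → ℚ)) →ₗ[ℂ] Matrix (Fin d) (Fin d) ℂ where
  toFun x := Q * (matE (2 * g)).symm x * P
  map_add' x y := by rw [map_add, Matrix.mul_add, Matrix.add_mul]
  map_smul' c x := by rw [map_smul, Matrix.mul_smul, Matrix.smul_mul, RingHom.id_apply]

theorem ka_matE (Y : Matrix (Fin (2 * g)) (Fin (2 * g)) ℂ) :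
    ka P Q (matE (2 * g) Y) = Q * Y * P := by
  change Q * (matE (2 * g)).symm (matE (2 * g) Y) * P = _
  rw [AlgEquiv.symm_apply_apply]

theorem ka_mul (h : Q * P = 1) {x y : Module.End ℂ (ℂ ⊗[ℚ] (Fin (2 * g) → ℚ))}
    (hx : matE (2 * g) (P * Q) * x = x * matE (2 * g) (P * Q)) :
    ka P Q (x * y) = ka P Q x * ka P Q y := by
  obtain ⟨X, rfl⟩ := (matE (2 * g)).surjective x
  obtain ⟨Y, rfl⟩ := (matE (2 * g)).surjective y
  rw [← map_mul, ← map_mul] at hx
  have hX := (matE (2 * g)).injective hx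
  rw [← map_mul, ka_matE, ka_matE, ka_matE]
  calc Q * (X * Y) * P = (Q * P) * Q * X * Y * P := by rw [h, Matrix.one_mul]; simp only [Matrix.mul_assoc]
    _ = Q * (P * Q * X) * Y * P := by simp only [Matrix.mul_assoc]
    _ = Q * (X * (P * Q)) * Y * P := by rw [hX]
    _ = Q * X * P * (Q * Y * P) := by simp only [Matrix.mul_assoc]

theorem io_ka (h : Q * P = 1) {x : Module.End ℂ (ℂ ⊗[ℚ] (Fin (2 * g) → ℚ))}
    (hx : matE (2 * g) (P * Q) * x = x * matE (2 * g) (P * Q)) :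
    io P Q (ka P Q x) = matE (2 * g) (P * Q) * x := by
  obtain ⟨X, rfl⟩ := (matE (2 * g)).surjective x
  rw [← map_mul, ← map_mul] at hx
  have hX := (matE (2 * g)).injective hx
  rw [ka_matE, io_apply, ← map_mul]
  congr 1
  calc P * (Q * X * P) * Q = P * Q * (X * (P * Q)) := by simp only [Matrix.mul_assoc]
    _ = P * Q * (P * Q * X) := by rw [← hX]
    _ = P * (Q * P) * Q * X := by simp only [Matrix.mul_assoc]
    _ = P * Q * X := by rw [h, Matrix.mul_one]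

/-- The image of the Lie algebra. -/
theorem map_ka (T : Submodule ℚ (Module.End ℚ A.H1)) :
    (cx T).map (ka P Q) = Submodule.span ℂ {Y | ∃ X ∈ T, Y = Q * toC X * P} := by
  unfold Pool.Agent.Y102.cx extEnd
  rw [Submodule.map_span]
  congr 1
  ext x
  constructor
  · rintro ⟨_, ⟨X, hX, rfl⟩, rfl⟩
    refine ⟨X, hX, ?_⟩
    rw [← matE_toC, ka_matE]
  · rintro ⟨X, hX, rfl⟩
    refine ⟨_, ⟨X, hX, rfl⟩, ?_⟩
    rw [← matE_toC, ka_matE]

variable {I : Type} [Fintype I] [DecidableEq I]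
  {φ : I → TA.S →ₗ[ℂ] Matrix (Fin d) (Fin d) ℂ}

/-- **The part of type `A_1`.** -/
theorem derPart_typeA (hQP : Q * P = 1) (hst : ∀ X ∈ A.NA, P * Q * toC X = toC X * (P * Q))
    (ht : TA.TypeA φ (Submodule.span ℂ {Y | ∃ X ∈ A.NA, Y = Q * toC X * P})) :
    DerPart A (matE (2 * g) (P * Q)) := by
  have hbc : ∀ X : Module.End ℚ A.H1, matE (2 * g) (toC X) = X.baseChange ℂ := fun X => matE_toC X
  have hcomm : ∀ x ∈ cx A.NA, matE (2 * g) (P * Q) * x = x * matE (2 * g) (P * Q) := by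
    refine cx_comm (T := matE (2 * g) (P * Q)) fun X hX => ?_
    rw [← hbc, ← map_mul, ← map_mul, hst X hX]
  have hidem : matE (2 * g) (P * Q) * matE (2 * g) (P * Q) = matE (2 * g) (P * Q) := by
    rw [← io_one, ← io_mul hQP, one_mul]
  have hone : ka P Q 1 = 1 := by
    have h1 : ka P Q 1 = ka P Q (matE (2 * g) 1) := by rw [map_one (matE (2 * g))]
    rw [h1, ka_matE, Matrix.mul_one, hQP]
  refine ⟨hcomm, fun {𝔮} hq {X} hX => ?_⟩
  have hcq : ∀ x ∈ cx 𝔮, matE (2 * g) (P * Q) * x = x * matE (2 * g) (P * Q) :=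
    fun x hx => hcomm x (cx_mono hq.le hx)
  have hbrk : ∀ {x y : Module.End ℂ (ℂ ⊗[ℚ] (Fin (2 * g) → ℚ))},
      matE (2 * g) (P * Q) * x = x * matE (2 * g) (P * Q) →
      matE (2 * g) (P * Q) * y = y * matE (2 * g) (P * Q) →
      ka P Q x * ka P Q y - ka P Q y * ka P Q x = ka P Q (x * y - y * x) := by
    intro x y hx hy
    rw [map_sub, ka_mul hQP hx, ka_mul hQP hy]
  -- the algebra generated by `𝔮`
  have hadj : ∀ T : Matrix (Fin d) (Fin d) ℂ, (∀ Y ∈ (cx 𝔮).map (ka P Q), T * Y = Y * T) →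
      ∀ y ∈ Algebra.adjoin ℂ (cx 𝔮 : Set (Module.End ℂ (ℂ ⊗[ℚ] A.H1))),
        matE (2 * g) (P * Q) * y = y * matE (2 * g) (P * Q) ∧
          T * ka P Q y = ka P Q y * T := by
    intro T hT y hy
    induction hy using Algebra.adjoin_induction with
    | mem y hy => exact ⟨hcq y hy, hT _ ⟨y, hy, rfl⟩⟩
    | algebraMap c =>
      refine ⟨(Algebra.commutes c _).symm, ?_⟩
      rw [Algebra.algebraMap_eq_smul_one, map_smul, hone, mul_smul_comm, smul_mul_assoc, mul_one,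
        one_mul]
    | add a b _ _ ha hb =>
      exact ⟨by rw [mul_add, add_mul, ha.1, hb.1], by
        rw [map_add, mul_add, add_mul, ha.2, hb.2]⟩
    | mul a b _ _ ha hb =>
      refine ⟨by rw [← mul_assoc, ha.1, mul_assoc, hb.1, mul_assoc], ?_⟩
      rw [ka_mul hQP ha.1, ← mul_assoc, ha.2, mul_assoc, hb.2, mul_assoc]
  have key : ∀ Y ∈ (cx A.NA).map (ka P Q), ∀ Z ∈ (cx A.NA).map (ka P Q),
      Y * Z - Z * Y ∈ (cx 𝔮).map (ka P Q) := by
    intro Y hY Z hZ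
    have ht' := ht
    rw [← map_ka] at ht'
    refine ht'.br_mem (D := (cx (Pool.Agent.Y102.der 𝔮)).map (ka P Q))
      (Submodule.map_mono (cx_mono hq.le)) (Submodule.map_mono (cx_mono hq.der_le)) ?_ ?_ ?_ ?_
      hY hZ
    · rintro _ ⟨x, hx, rfl⟩ _ ⟨y, hy, rfl⟩
      rw [hbrk (hcq x hx) (hcq y hy)]
      exact ⟨_, hq.cx_br' x hx y hy, rfl⟩
    · have h1 := Submodule.map_mono (f := ka P Q) hq.cx_perfect
      refine h1.trans ?_
      rw [Submodule.map_span, Submodule.span_le]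
      rintro _ ⟨_, ⟨x, hx, y, hy, rfl⟩, rfl⟩
      refine Submodule.subset_span ⟨_, ⟨x, hx, rfl⟩, _, ⟨y, hy, rfl⟩, ?_⟩
      rw [hbrk (hcq x (cx_mono hq.der_le hx)) (hcq y (cx_mono hq.der_le hy))]
    · rintro _ ⟨x, hx, rfl⟩
      obtain ⟨z, hz, y, hy, hxy, hzc⟩ := hq.cx_dec x hx
      refine ⟨_, ⟨z, hz, rfl⟩, _, ⟨y, hy, rfl⟩, by rw [hxy, map_add], ?_⟩
      rintro _ ⟨v, hv, rfl⟩
      rw [← ka_mul hQP (hcq z hz), ← ka_mul hQP (hcq v hv), hzc v hv]
    · rintro T hT _ ⟨x, hx, rfl⟩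
      exact (hadj T hT x (hq.cx_adjoin x hx)).2
  -- the first step
  have step : ∀ {X Y : Module.End ℚ A.H1}, X ∈ A.NA → Y ∈ A.NA → ∃ y ∈ cx 𝔮,
      matE (2 * g) (P * Q) * (X * Y - Y * X).baseChange ℂ = matE (2 * g) (P * Q) * y := by
    intro X Y hX hY
    obtain ⟨y, hy, h1⟩ := key _ ⟨_, bc_mem hX, rfl⟩ _ ⟨_, bc_mem hY, rfl⟩
    refine ⟨y, hy, ?_⟩
    rw [hbrk (hcomm _ (bc_mem hX)) (hcomm _ (bc_mem hY)), ← bc_br] at h1
    have h2 : matE (2 * g) (P * Q) * (X * Y - Y * X).baseChange ℂ =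
        (X * Y - Y * X).baseChange ℂ * matE (2 * g) (P * Q) :=
      hcomm _ (bc_mem (full_NA.br X hX Y hY))
    rw [← io_ka hQP h2, ← io_ka hQP (hcq y hy), h1]
  have step' : ∀ X ∈ Pool.Agent.Y102.der A.NA, ∃ y ∈ cx 𝔮,
      matE (2 * g) (P * Q) * X.baseChange ℂ = matE (2 * g) (P * Q) * y := by
    intro X hX
    induction hX using Submodule.span_induction with
    | mem X hX =>
      obtain ⟨X, hX, Y, hY, rfl⟩ := hX
      exact step hX hY
    | zero => exact ⟨0, Submodule.zero_mem _, by rw [LinearMap.baseChange_zero]⟩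
    | add a b _ _ ha hb =>
      obtain ⟨x, hx, h1⟩ := ha
      obtain ⟨y, hy, h2⟩ := hb
      exact ⟨x + y, Submodule.add_mem _ hx hy, by
        rw [LinearMap.baseChange_add, mul_add, mul_add, h1, h2]⟩
    | smul c a _ ha =>
      obtain ⟨x, hx, h1⟩ := ha
      refine ⟨(c : ℂ) • x, Submodule.smul_mem _ _ hx, ?_⟩
      have h2 : (c • a).baseChange ℂ = (c : ℂ) • (a.baseChange ℂ : Module.End ℂ (ℂ ⊗[ℚ] A.H1)) := by
        rw [LinearMap.baseChange_smul]
        exact (Rat.cast_smul_eq_qsmul ℂ c _).symm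
      rw [h2, mul_smul_comm, mul_smul_comm, h1]
  have hmul : ∀ x y : Module.End ℂ (ℂ ⊗[ℚ] A.H1),
      matE (2 * g) (P * Q) * x = x * matE (2 * g) (P * Q) →
      (matE (2 * g) (P * Q) * x) * (matE (2 * g) (P * Q) * y) =
        matE (2 * g) (P * Q) * (x * y) := by
    intro x y hx
    calc (matE (2 * g) (P * Q) * x) * (matE (2 * g) (P * Q) * y) =
        matE (2 * g) (P * Q) * (x * matE (2 * g) (P * Q)) * y := by simp only [mul_assoc]
      _ = matE (2 * g) (P * Q) * matE (2 * g) (P * Q) * (x * y) := by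
        rw [← hx]; simp only [mul_assoc]
      _ = matE (2 * g) (P * Q) * (x * y) := by rw [hidem]
  have hp := (full_NA (A := A)).perfect hX
  clear hX
  induction hp using Submodule.span_induction with
  | mem X hX =>
    obtain ⟨X, hX, Y, hY, rfl⟩ := hX
    obtain ⟨x, hx, h1⟩ := step' X hX
    obtain ⟨y, hy, h2⟩ := step' Y hY
    refine ⟨x * y - y * x, ?_, ?_⟩
    · refine cx_br (T := cx (Pool.Agent.Y102.der 𝔮)) (fun X hX Y hY => ?_) x hx y hy
      rw [← bc_br]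
      exact bc_mem (Submodule.subset_span ⟨X, hX, Y, hY, rfl⟩)
    · have e1 := hcomm _ (bc_mem (der_NA_le hX))
      have e2 := hcomm _ (bc_mem (der_NA_le hY))
      rw [bc_br, mul_sub, mul_sub, ← hmul _ _ e1, ← hmul _ _ e2, h1, h2, hmul _ _ (hcq x hx),
        hmul _ _ (hcq y hy)]
  | zero => exact ⟨0, Submodule.zero_mem _, by rw [LinearMap.baseChange_zero]⟩
  | add a b _ _ ha hb =>
    obtain ⟨x, hx, h1⟩ := ha
    obtain ⟨y, hy, h2⟩ := hb
    exact ⟨x + y, Submodule.add_mem _ hx hy, by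
      rw [LinearMap.baseChange_add, mul_add, mul_add, h1, h2]⟩
  | smul c a _ ha =>
    obtain ⟨x, hx, h1⟩ := ha
    refine ⟨(c : ℂ) • x, Submodule.smul_mem _ _ hx, ?_⟩
    have h2 : (c • a).baseChange ℂ = (c : ℂ) • (a.baseChange ℂ : Module.End ℂ (ℂ ⊗[ℚ] A.H1)) := by
      rw [LinearMap.baseChange_smul]
      exact (Rat.cast_smul_eq_qsmul ℂ c _).symm
    rw [h2, mul_smul_comm, mul_smul_comm, h1]

end Pool.Agent.N113.BT
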