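import Pool.Agent.N113.BT.Mid

set_option autoImplicit false
set_option linter.unusedSectionVars false
set_option linter.unusedVariables false

/-!
# Motives whose Mumford-Tate domain is the domain of a rigid part: main theorems
-/

open Module Function TensorProduct Matrix

noncomputable section

namespace Pool.Agent.N113.BT

open Pool.Agent.Y102 Pool.Agent.W516.DR Pool.Agent.H204R3.GP Pool.Agent.W516.KC
  Pool.Agent.H204R3.SP Pool.Agent.TH119.MX Pool.Agent.R917 Pool.Agent.N208.AM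

variable {g : ℕ} {A : AbVar g} {s n : ℕ} {r : Fin s → ℕ} {B : Fin n → Ten A r} {w : Fin s → ℤ}
  {P : Matrix (Fin n) (Fin n) ℂ} {Wt : Matrix (Fin n) (Fin n) ℚ}
  {H : Set (Matrix (Fin n) (Fin n) ℂ)} {N : Matrix (Fin n) (Fin n) ℝ}
  {e : Module.End ℂ (ℂ ⊗[ℚ] A.H1)} {S : Submodule ℂ (Module.End ℂ (ℂ ⊗[ℚ] A.H1))}

/-- **Main theorem**, without a condition on the centre: the derived algebra of the Lie algebra of
the Hodge group is in the Lie algebra of the group. -/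
theorem main_der' (h : Mot w B P) (hW : WRel w B Wt) (hH : PtM P H) (hr : RigPart A e S)
    (hN : RelR B AbVar.JJ N)
    (hα : ∀ p ∈ pC B (der A.NA), e * p.1 = 0 → p.2 * cxm N = cxm N * p.2) :
    ∃ L : Submodule ℚ (Matrix (Fin n) (Fin n) ℚ), (∀ x ∈ L, ∀ y ∈ L, x * y - y * x ∈ L) ∧
      N ∈ Submodule.span ℝ {M | ∃ x ∈ L, M = rq x} ∧
      ∀ x ∈ L, ∀ y ∈ L, x * y - y * x ∈ LQ H := by
  obtain ⟨N', hN', t, X, M, h1, h2⟩ := exists_J h
  have h3 : N = N' := hN.uniq h.li hN'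
  subst h3
  have h4 : N ∈ spR B (A.NA : Set (Module.End ℚ A.H1)) := by
    rw [h2]
    exact Submodule.sum_mem _ fun k _ => Submodule.smul_mem _ _ (mem_spR (h1 k).1 (h1 k).2)
  obtain ⟨Nc, hNc, Nd, hNd, hNe⟩ := exists_dec h h4
  have h5 := N_mem' h hW hH hr hN hNc hNd hNe hα
  refine ⟨cdM B Wt H, fun x hx y hy => ?_, ?_, fun x hx y hy => ?_⟩
  · obtain ⟨d, hd, hd'⟩ := cdM_br h hW hH hx hy
    exact ⟨0, (cenA A).zero_mem, d, hd, 0, _, Rel.zero, hd', (zero_add _).symm⟩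
  · rw [hNe]
    refine Submodule.add_mem _ ?_ ?_
    · refine Submodule.span_mono ?_ hNc
      rintro _ ⟨Z, hZ, M, hM, rfl⟩
      exact ⟨M, ⟨Z, hZ, 0, (dq B Wt H).zero_mem, M, 0, hM, Rel.zero, (add_zero _).symm⟩, rfl⟩
    · refine Submodule.span_mono ?_ h5
      rintro _ ⟨d, hd, M, hM, rfl⟩
      exact ⟨M, ⟨0, (cenA A).zero_mem, d, hd, 0, M, Rel.zero, hM, (zero_add _).symm⟩, rfl⟩
  · obtain ⟨d, hd, hd'⟩ := cdM_br h hW hH hx hy
    obtain ⟨-, M', h6, h7⟩ := der_mem h hW hd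
    rw [hd'.uniq h.li h6]
    exact h7

/-- **Main theorem.** -/
theorem main_B' (h : Mot w B P) (hW : WRel w B Wt) (hH : PtM P H) (hc : NoCentre B)
    (hr : RigPart A e S) (hN : RelR B AbVar.JJ N)
    (hα : ∀ p ∈ pC B (der A.NA), e * p.1 = 0 → p.2 * cxm N = cxm N * p.2)
    {z : ℂ} (hz : z ≠ 0) : NormedSpace.exp (KK Wt N z) ∈ H ∧
      HRel w B z (NormedSpace.exp (KK Wt N z)) := by
  obtain ⟨N', hN', t, X, M, h1, h2⟩ := exists_J h
  have h3 : N = N' := hN.uniq h.li hN'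
  subst h3
  have h4 : N ∈ spR B (A.NA : Set (Module.End ℚ A.H1)) := by
    rw [h2]
    exact Submodule.sum_mem _ fun k _ => Submodule.smul_mem _ _ (mem_spR (h1 k).1 (h1 k).2)
  obtain ⟨Nc, hNc, Nd, hNd, hNe⟩ := exists_dec h h4
  have h5 := N_mem' h hW hH hr hN hNc hNd hNe hα
  have h6 : Nc = 0 := by
    clear hNe
    induction hNc using Submodule.span_induction with
    | mem x hx =>
      obtain ⟨Z, hZ, M, hM, rfl⟩ := hx
      have h7 : Rel B Z 0 := hc Z hZ.1 fun Y hY => by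
        rw [hZ.2 Y hY, sub_self]
        exact Rel.zero
      rw [hM.uniq h.li h7, rq_zero]
    | zero => rfl
    | add a b _ _ ha hb => rw [ha, hb, add_zero]
    | smul c a _ ha => rw [ha, smul_zero]
  rw [h6, zero_add] at hNe
  rw [← hNe] at h5
  refine ⟨exp_mem hH.grp fun d => ?_, hrel_exp hW hN hz⟩
  unfold KK
  exact ((Wt_mem h hW hH hc d).smul _).add ((stab_spR h hW h5 d).smul _)

/-- The condition on the pairs, in terms of matrices. -/
theorem alpha_of {E : Matrix (Fin (2 * g)) (Fin (2 * g)) ℂ} {T : Submodule ℚ (Module.End ℚ A.H1)}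
    (hα : ∀ p ∈ Submodule.span ℂ {p : Matrix (Fin (2 * g)) (Fin (2 * g)) ℂ ×
      Matrix (Fin n) (Fin n) ℂ | ∃ X ∈ T, ∃ M, Rel B X M ∧ p = (toC X, cq M)},
      E * p.1 = 0 → p.2 * cxm N = cxm N * p.2) :
    ∀ p ∈ pC B T, matE (2 * g) E * p.1 = 0 → p.2 * cxm N = cxm N * p.2 := by
  intro p hp h0
  have key : ∀ p ∈ pC B T, ∃ x, matE (2 * g) x = p.1 ∧ (x, p.2) ∈
      Submodule.span ℂ {p : Matrix (Fin (2 * g)) (Fin (2 * g)) ℂ × Matrix (Fin n) (Fin n) ℂ |
        ∃ X ∈ T, ∃ M, Rel B X M ∧ p = (toC X, cq M)} := by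
    intro p hp
    induction hp using Submodule.span_induction with
    | mem p hp =>
      obtain ⟨X, hX, M, hM, rfl⟩ := hp
      exact ⟨toC X, matE_toC X, Submodule.subset_span ⟨X, hX, M, hM, rfl⟩⟩
    | zero => exact ⟨0, map_zero _, Submodule.zero_mem _⟩
    | add p q _ _ hp hq =>
      obtain ⟨x, hx, hx'⟩ := hp
      obtain ⟨y, hy, hy'⟩ := hq
      exact ⟨x + y, by rw [map_add, hx, hy]; rfl, Submodule.add_mem _ hx' hy'⟩
    | smul c p _ hp =>
      obtain ⟨x, hx, hx'⟩ := hp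
      exact ⟨c • x, by rw [map_smul, hx]; rfl, Submodule.smul_mem _ c hx'⟩
  obtain ⟨x, hx, hx'⟩ := key p hp
  refine hα _ hx' ?_
  rw [← hx, ← map_mul] at h0
  exact (matE (2 * g)).injective (h0.trans (map_zero _).symm)

end Pool.Agent.N113.BT
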