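import Pool.Agent.R918.MidMat
import Pool.Agent.N113.BT.Core

set_option autoImplicit false
set_option linter.unusedSectionVars false
set_option linter.unusedVariables false

/-!
# Rigid parts: products of middle exterior powers
-/

open Module Function TensorProduct Matrix

noncomputable section

namespace Pool.Agent.N113.BT

open Pool.Agent.R918

section gen

variable {k n : ℕ} {U : Type} [AddCommGroup U] [Module ℂ U]
  {a b : Fin k × Fin n → Module.End ℂ U} {V : Type} [AddCommGroup V] [Module ℂ V]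

/-- A middle part of `V`, which is a direct summand. -/
structure MidPart (a b : Fin k × Fin n → Module.End ℂ U) (P : U →ₗ[ℂ] V) (Q : V →ₗ[ℂ] U) :
    Prop where
  car : Car a b
  pqp : ∀ u, P (Q (P u)) = P u
  mid : ∀ x τ, (2 : ℂ) • nn a b τ (Q x) = (n : ℂ) • Q x
  qp : ∀ u, (∀ τ, (2 : ℂ) • nn a b τ u = (n : ℂ) • u) → Q (P u) = u

variable {P : U →ₗ[ℂ] V} {Q : V →ₗ[ℂ] U}

namespace MidPart

variable (h : MidPart a b P Q)
include h

theorem qpq (x : V) : Q (P (Q x)) = Q x := h.qp _ fun τ => h.mid x τ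

/-- The range. -/
def R (h : MidPart a b P Q) : Submodule ℂ V := LinearMap.range (P ∘ₗ Q)

theorem mem_R (u : U) : P u ∈ h.R := ⟨P u, h.pqp u⟩

theorem of_R (x : h.R) : P (Q (x : V)) = x := by
  obtain ⟨y, hy⟩ := x.2
  have h1 : P (Q y) = x := hy
  rw [← h1, h.pqp]

/-- The projection. -/
def P' (h : MidPart a b P Q) : U →ₗ[ℂ] h.R := P.codRestrict h.R h.mem_R

/-- The inclusion. -/
def Q' (h : MidPart a b P Q) : h.R →ₗ[ℂ] U := Q ∘ₗ h.R.subtype

theorem ms : MidSet a b h.P' h.Q' where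
  pq x := Subtype.ext (h.of_R x)
  mid x τ := h.mid _ τ
  qp u hu := h.qp u hu

/-- The embedding of the endomorphisms. -/
def rh (h : MidPart a b P Q) : Module.End ℂ h.R →ₗ[ℂ] Module.End ℂ V where
  toFun x := h.R.subtype ∘ₗ x ∘ₗ (h.P' ∘ₗ Q)
  map_add' x y := by
    refine LinearMap.ext fun v => ?_
    simp
  map_smul' c x := by
    refine LinearMap.ext fun v => ?_
    simp

theorem rh_apply (x : Module.End ℂ h.R) (v : V) :
    h.rh x v = (x ⟨P (Q v), h.mem_R _⟩ : h.R) := rfl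

theorem rh_inj {x y : Module.End ℂ h.R} (hxy : h.rh x = h.rh y) : x = y := by
  refine LinearMap.ext fun v => ?_
  have h1 := LinearMap.congr_fun hxy (v : V)
  rw [h.rh_apply, h.rh_apply] at h1
  have h2 : (⟨P (Q (v : V)), h.mem_R _⟩ : h.R) = v := Subtype.ext (h.of_R v)
  rw [h2] at h1
  exact Subtype.ext h1

theorem rh_mul (x y : Module.End ℂ h.R) : h.rh (x * y) = h.rh x * h.rh y := by
  refine LinearMap.ext fun v => ?_
  rw [Module.End.mul_apply, h.rh_apply, h.rh_apply, h.rh_apply]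
  have h2 : (⟨P (Q ((y ⟨P (Q v), h.mem_R _⟩ : h.R) : V)), h.mem_R _⟩ : h.R) =
      y ⟨P (Q v), h.mem_R _⟩ := Subtype.ext (h.of_R _)
  rw [h2, Module.End.mul_apply]

theorem rh_one : h.rh 1 = P ∘ₗ Q := rfl

theorem rh_cmp (X : Module.End ℂ U) : h.rh (cmp h.P' h.Q' X) = cmp P Q X := by
  refine LinearMap.ext fun v => ?_
  rw [h.rh_apply]
  change P (X (Q (P (Q v)))) = P (X (Q v))
  rw [h.qpq]

theorem rh_left (x : Module.End ℂ h.R) : (P ∘ₗ Q : Module.End ℂ V) * h.rh x = h.rh x := by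
  rw [← h.rh_one, ← h.rh_mul, one_mul]

theorem rh_right (x : Module.End ℂ h.R) : h.rh x * (P ∘ₗ Q : Module.End ℂ V) = h.rh x := by
  rw [← h.rh_one, ← h.rh_mul, mul_one]

theorem slC_rh {z : Module.End ℂ V} (hz : z ∈ slC a b P Q) :
    ∃ x ∈ slC a b h.P' h.Q', h.rh x = z := by
  obtain ⟨M, h1, h2, rfl⟩ := hz
  exact ⟨_, ⟨M, h1, h2, rfl⟩, h.rh_cmp _⟩

theorem slC_rh' {x : Module.End ℂ h.R} (hx : x ∈ slC a b h.P' h.Q') :
    h.rh x ∈ slC a b P Q := by
  obtain ⟨M, h1, h2, rfl⟩ := hx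
  exact ⟨M, h1, h2, h.rh_cmp _⟩

theorem sbr : ∀ x ∈ slC a b P Q, ∀ y ∈ slC a b P Q, x * y - y * x ∈ slC a b P Q := by
  intro x hx y hy
  obtain ⟨x', hx', rfl⟩ := h.slC_rh hx
  obtain ⟨y', hy', rfl⟩ := h.slC_rh hy
  rw [← h.rh_mul, ← h.rh_mul, ← map_sub]
  exact h.slC_rh' (slC_br h.car h.ms _ hx' _ hy')

/-- **The middle part is rigid.** -/
theorem rig [FiniteDimensional ℂ U] [FiniteDimensional ℂ V] {m : ℕ} (hm : 2 * m = n)
    {L : Submodule ℂ (Module.End ℂ V)} (hL : L ≤ slC a b P Q)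
    (hbr : ∀ x ∈ L, ∀ y ∈ L, x * y - y * x ∈ L)
    (hgen : ∀ z ∈ slC a b P Q, ∃ y ∈ Algebra.adjoin ℂ (L : Set (Module.End ℂ V)),
      z = (P ∘ₗ Q : Module.End ℂ V) * y) : slC a b P Q ≤ L := by
  rcases subsingleton_or_nontrivial h.R with hs | hs
  · intro z hz
    obtain ⟨x, -, rfl⟩ := h.slC_rh hz
    have h1 : x = 0 := LinearMap.ext fun v => Subsingleton.elim _ _
    rw [h1, map_zero]
    exact L.zero_mem
  let 𝔥 : Submodule ℂ (Module.End ℂ h.R) := L.comap h.rh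
  have hlift : ∀ z ∈ L, ∃ x ∈ 𝔥, h.rh x = z := by
    intro z hz
    obtain ⟨x, hx, h1⟩ := h.slC_rh (hL hz)
    refine ⟨x, ?_, h1⟩
    change h.rh x ∈ L
    rw [h1]
    exact hz
  -- the algebra
  have hadj : ∀ y ∈ Algebra.adjoin ℂ (L : Set (Module.End ℂ V)),
      (P ∘ₗ Q : Module.End ℂ V) * y = y * (P ∘ₗ Q : Module.End ℂ V) ∧
      ∃ x ∈ Algebra.adjoin ℂ (𝔥 : Set (Module.End ℂ h.R)),
        h.rh x = (P ∘ₗ Q : Module.End ℂ V) * y := by
    intro y hy
    induction hy using Algebra.adjoin_induction with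
    | mem y hy =>
      obtain ⟨x, hx, rfl⟩ := hlift y hy
      rw [h.rh_left, h.rh_right]
      exact ⟨rfl, x, Algebra.subset_adjoin hx, rfl⟩
    | algebraMap c =>
      refine ⟨(Algebra.commutes c _).symm, algebraMap ℂ _ c, Subalgebra.algebraMap_mem _ c, ?_⟩
      rw [Algebra.algebraMap_eq_smul_one, Algebra.algebraMap_eq_smul_one, map_smul, h.rh_one,
        mul_smul_comm, mul_one]
    | add y y' _ _ hy hy' =>
      obtain ⟨h1, x, hx, h2⟩ := hy
      obtain ⟨h3, x', hx', h4⟩ := hy'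
      exact ⟨by rw [mul_add, add_mul, h1, h3], x + x', Subalgebra.add_mem _ hx hx', by
        rw [map_add, h2, h4, mul_add]⟩
    | mul y y' _ _ hy hy' =>
      obtain ⟨h1, x, hx, h2⟩ := hy
      obtain ⟨h3, x', hx', h4⟩ := hy'
      refine ⟨by rw [← mul_assoc, h1, mul_assoc, h3, mul_assoc], x * x',
        Subalgebra.mul_mem _ hx hx', ?_⟩
      rw [h.rh_mul, h2, h4, h1, mul_assoc, ← mul_assoc (P ∘ₗ Q : Module.End ℂ V) (P ∘ₗ Q) y',
        ← h.rh_one, ← h.rh_mul, one_mul, h.rh_one, ← mul_assoc, ← h1, mul_assoc]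
  have hsl : Algebra.adjoin ℂ (slC a b h.P' h.Q' : Set (Module.End ℂ h.R)) ≤
      Algebra.adjoin ℂ (𝔥 : Set (Module.End ℂ h.R)) := by
    refine Algebra.adjoin_le fun x hx => ?_
    obtain ⟨y, hy, h1⟩ := hgen _ (h.slC_rh' hx)
    obtain ⟨-, x', hx', h2⟩ := hadj y hy
    rw [← h1] at h2
    rw [← h.rh_inj h2]
    exact hx'
  have hmid : MidHyp a b h.P' h.Q' 𝔥 :=
    { car := h.car
      ms := h.ms
      hle := by
        intro x hx
        have h1 : h.rh x ∈ slC a b P Q := hL hx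
        obtain ⟨x', hx', h2⟩ := h.slC_rh h1
        rw [← h.rh_inj h2]
        exact hx'
      hbr := by
        intro x hx y hy
        change h.rh (x * y - y * x) ∈ L
        rw [map_sub, h.rh_mul, h.rh_mul]
        exact hbr _ hx _ hy
      gen := fun σ i j => hsl (slC_gen h.car h.ms σ i j) }
  intro z hz
  obtain ⟨x, ⟨M, h1, h2, rfl⟩, rfl⟩ := h.slC_rh hz
  exact hmid.all_mem hm M h1 h2

end MidPart

end gen

section AV

open Pool.Agent.Y102 Pool.Agent.W516.DR Pool.Agent.H204R3.GP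

variable {g N k m : ℕ} {A : AbVar g}
  {a b : Fin k → Fin (2 * m) → Matrix (Fin N) (Fin N) ℂ}
  {P : Matrix (Fin (2 * g)) (Fin N) ℂ} {Q : Matrix (Fin N) (Fin (2 * g)) ℂ}

/-- The middle part, from matrices. -/
theorem midPart_of {r n : ℕ} {a b : Fin k → Fin n → Matrix (Fin N) (Fin N) ℂ}
    {P : Matrix (Fin r) (Fin N) ℂ} {Q : Matrix (Fin N) (Fin r) ℂ} (hm : 2 * m = n)
    (haa : ∀ σ i τ j, a σ i * a τ j = -(a τ j * a σ i))
    (hbb : ∀ σ i τ j, b σ i * b τ j = -(b τ j * b σ i))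
    (hab : ∀ σ i τ j, a σ i * b τ j + b τ j * a σ i = if σ = τ ∧ i = j then 1 else 0)
    (hP : P * Q * P = P) (hQP : Q * P * Q = Q)
    (hQ : ∀ v, (∃ w, v = Q.mulVec w) ↔ ∀ σ, (quant a b σ 1).mulVec v = (m : ℂ) • v) :
    MidPart (opl a) (opl b) (PP P) (QQ Q) where
  car := car_opl haa hbb hab
  pqp u := by
    rw [PP_apply (P := P) u, QQ_eqv, PP_apply, Matrix.mulVec_mulVec, Matrix.mulVec_mulVec, hP]
  mid x τ := by
    obtain ⟨w, rfl⟩ := (eqv r).surjective x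
    have h1 := (hQ (Q.mulVec w)).1 ⟨w, rfl⟩ τ
    rw [QQ_eqv, nn_quant]
    change (2 : ℂ) • (quant a b τ 1).mulVec (Q.mulVec w) = _
    rw [h1, smul_smul, ← hm]
    push_cast
    rfl
  qp u hu := by
    have h1 : ∀ σ, (quant a b σ 1).mulVec u = (m : ℂ) • u := by
      intro σ
      have h2 := hu σ
      rw [nn_quant] at h2
      have h3 : (2 : ℂ) • (quant a b σ 1).mulVec u = (2 : ℂ) • ((m : ℂ) • u) := by
        refine h2.trans ?_
        rw [smul_smul, ← hm]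
        push_cast
        rfl
      exact smul_right_injective _ (two_ne_zero (α := ℂ)) h3
    obtain ⟨w, rfl⟩ := (hQ u).2 h1
    rw [PP_apply, QQ_eqv, Matrix.mulVec_mulVec, Matrix.mulVec_mulVec, hQP]

theorem PQ_eq {r : ℕ} {P : Matrix (Fin r) (Fin N) ℂ} {Q : Matrix (Fin N) (Fin r) ℂ} :
    (PP P ∘ₗ QQ Q : Module.End ℂ (ℂ ⊗[ℚ] (Fin r → ℚ))) = matE r (P * Q) := by
  refine LinearMap.ext fun x => ?_
  obtain ⟨w, rfl⟩ := (eqv r).surjective x
  rw [LinearMap.comp_apply, QQ_eqv, PP_apply, Matrix.mulVec_mulVec, matE_eqv]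

theorem matE_adjoin {r : ℕ} (S : Submodule ℚ (Module.End ℚ (Fin r → ℚ)))
    {x : Matrix (Fin r) (Fin r) ℂ} (hx : x ∈ Algebra.adjoin ℂ
      (Submodule.span ℂ {Y | ∃ X ∈ S, Y = toC X} : Set (Matrix (Fin r) (Fin r) ℂ))) :
    matE r x ∈ Algebra.adjoin ℂ (cx S : Set (Module.End ℂ (ℂ ⊗[ℚ] (Fin r → ℚ)))) := by
  rw [← map_lie]
  induction hx using Algebra.adjoin_induction with
  | mem x hx => exact Algebra.subset_adjoin ⟨x, hx, rfl⟩
  | algebraMap r =>
    rw [AlgEquiv.commutes]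
    exact Subalgebra.algebraMap_mem _ r
  | add x y _ _ hx hy => rw [map_add]; exact Subalgebra.add_mem _ hx hy
  | mul x y _ _ hx hy => rw [map_mul]; exact Subalgebra.mul_mem _ hx hy

/-- **The rigid part**, from matrices. -/
theorem rigPart_of
    (haa : ∀ σ i τ j, a σ i * a τ j = -(a τ j * a σ i))
    (hbb : ∀ σ i τ j, b σ i * b τ j = -(b τ j * b σ i))
    (hab : ∀ σ i τ j, a σ i * b τ j + b τ j * a σ i = if σ = τ ∧ i = j then 1 else 0)
    (hP : P * Q * P = P) (hQP : Q * P * Q = Q)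
    (hQ : ∀ v, (∃ w, v = Q.mulVec w) ↔ ∀ σ, (quant a b σ 1).mulVec v = (m : ℂ) • v)
    (hst : ∀ X ∈ A.NA, P * Q * toC X = toC X * (P * Q))
    (hle : ∀ X ∈ A.NA, ∃ c : ℂ, P * Q * toC X + c • (P * Q) ∈
      Submodule.span ℂ {Y | ∃ σ x, Matrix.trace x = 0 ∧ Y = P * quant a b σ x * Q})
    (hgen : ∀ σ i j, ∃ Y ∈ Algebra.adjoin ℂ (Submodule.span ℂ {Y | ∃ X ∈ A.NA, Y = toC X} :
        Set (Matrix (Fin (2 * g)) (Fin (2 * g)) ℂ)), P * (a σ i * b σ j) * Q = P * Q * Y) :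
    RigPart A (matE (2 * g) (P * Q)) (slC (opl a) (opl b) (PP P) (QQ Q)) := by
  have h := midPart_of (a := a) (b := b) rfl haa hbb hab hP hQP hQ
  have he : matE (2 * g) (P * Q) = (PP P ∘ₗ QQ Q : Module.End ℂ (ℂ ⊗[ℚ] (Fin (2 * g) → ℚ))) :=
    PQ_eq.symm
  have hsid : ∀ z ∈ slC (opl a) (opl b) (PP P) (QQ Q),
      matE (2 * g) (P * Q) * z = z ∧ z * matE (2 * g) (P * Q) = z := by
    intro z hz
    obtain ⟨x, -, rfl⟩ := h.slC_rh hz
    rw [he]
    exact ⟨h.rh_left x, h.rh_right x⟩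
  have hbc : ∀ X : Module.End ℚ A.H1, matE (2 * g) (toC X) = X.baseChange ℂ := fun X => matE_toC X
  refine ⟨?_, ?_, hsid, h.sbr, ?_, ?_, ?_⟩
  · refine cx_comm (T := matE (2 * g) (P * Q)) fun X hX => ?_
    rw [← hbc, ← map_mul, ← map_mul, hst X hX]
  · rw [← map_mul, ← Matrix.mul_assoc, hP]
  · intro x hx
    induction hx using Submodule.span_induction with
    | mem x hx =>
      obtain ⟨X, hX, rfl⟩ := hx
      obtain ⟨c, hc⟩ := hle X hX
      refine ⟨c, ?_⟩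
      rw [← hbc, ← map_mul, ← map_smul, ← map_add, ← slC_eq]
      exact ⟨_, hc, rfl⟩
    | zero =>
      refine ⟨0, ?_⟩
      rw [mul_zero, zero_smul, add_zero]
      exact Submodule.zero_mem _
    | add x y _ _ hx hy =>
      obtain ⟨c, hc⟩ := hx
      obtain ⟨d, hd⟩ := hy
      refine ⟨c + d, ?_⟩
      have h1 := Submodule.add_mem _ hc hd
      convert h1 using 1
      rw [mul_add, add_smul]
      abel
    | smul t x _ hx =>
      obtain ⟨c, hc⟩ := hx
      refine ⟨t * c, ?_⟩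
      have h1 := Submodule.smul_mem _ t hc
      convert h1 using 1
      rw [mul_smul_comm, smul_add, smul_smul]
  · rintro z ⟨M, hM, htr, rfl⟩
    have h1 : ∀ σ i j, ∃ y ∈ Algebra.adjoin ℂ (cx A.NA : Set (Module.End ℂ (ℂ ⊗[ℚ] A.H1))),
        cmp (PP P) (QQ Q) (opl a (σ, i) * opl b (σ, j)) = matE (2 * g) (P * Q) * y := by
      intro σ i j
      obtain ⟨Y, hY, h2⟩ := hgen σ i j
      refine ⟨matE (2 * g) Y, matE_adjoin _ hY, ?_⟩
      have h3 : opl a (σ, i) * opl b (σ, j) = Matrix.toLinAlgEquiv' (a σ i * b σ j) := by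
        rw [map_mul]
        rfl
      rw [h3, cmp_PQ, h2, map_mul]
    choose y hy hy' using h1
    refine ⟨∑ p, ∑ q : Fin (2 * m), M p (p.1, q) • y p.1 p.2 q, Subalgebra.sum_mem _ fun p _ =>
      Subalgebra.sum_mem _ fun q _ => Subalgebra.smul_mem _ (hy _ _ _) _, ?_⟩
    have h4 : rho (opl a) (opl b) M = ∑ p, ∑ q, M p q • (opl a p * opl b q) := rfl
    rw [h4, map_sum, Finset.mul_sum]
    refine Finset.sum_congr rfl fun p _ => ?_
    rw [map_sum, Finset.mul_sum, Fintype.sum_prod_type, Finset.sum_eq_single p.1]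
    · refine Finset.sum_congr rfl fun q _ => ?_
      rw [map_smul, mul_smul_comm, ← hy']
    · intro τ _ hτ
      refine Finset.sum_eq_zero fun j _ => ?_
      rw [hM _ _ (Ne.symm hτ), zero_smul, map_zero]
    · intro h; exact absurd (Finset.mem_univ _) h
  · intro L hL hbr hg
    rw [he] at hg
    exact h.rig rfl hL hbr hg

end AV

end Pool.Agent.N113.BT
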