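import Pool.Agent.Y102.SP.ColMain
import Pool.Agent.N113.BT.Corner

set_option autoImplicit false
set_option linter.unusedSectionVars false
set_option linter.unusedVariables false

/-!
# Rigid parts: spin representations
-/

open Module Function TensorProduct Matrix

noncomputable section

namespace Pool.Agent.N113.BT

open Pool.Agent.Y102 Pool.Agent.Y102.SP

section gen

variable {N k : ℕ} {U : Type} [AddCommGroup U] [Module ℂ U] {E : Fin N → Module.End ℂ U}
  {c : Fin N → Fin k}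

theorem soC_br (hE : CE E) {x y : Module.End ℂ U} (hx : x ∈ soC E c) (hy : y ∈ soC E c) :
    x * y - y * x ∈ soC E c := by
  have hx' := pS_sum hE hx
  have hy' := pS_sum hE hy
  have e1 : x * y = ∑ s, ∑ t, pS E c s x * pS E c t y := by
    conv_lhs => rw [hx', hy']
    exact Finset.sum_mul_sum _ _ _ _
  have e2 : y * x = ∑ s, ∑ t, pS E c t y * pS E c s x := by
    conv_lhs => rw [hx', hy']
    rw [Finset.sum_mul_sum, Finset.sum_comm]
  rw [e1, e2, ← Finset.sum_sub_distrib]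
  refine Submodule.sum_mem _ fun s _ => ?_
  rw [← Finset.sum_sub_distrib]
  refine Submodule.sum_mem _ fun t _ => ?_
  by_cases h : s = t
  · subst h
    exact soS_le s (soS_br hE (pS_mem hE hx) (pS_mem hE hy))
  · rw [soS_comm hE h (pS_mem hE hx) (pS_mem hE hy), sub_self]
    exact Submodule.zero_mem _

end gen

variable {N k d : ℕ} {E : Fin N → Matrix (Fin d) (Fin d) ℂ} {c : Fin N → Fin k}

/-- The Lie algebra of a coloured system of matrices. -/
def soM (E : Fin N → Matrix (Fin d) (Fin d) ℂ) (c : Fin N → Fin k) :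
    Submodule ℂ (Matrix (Fin d) (Fin d) ℂ) :=
  Submodule.span ℂ {x | ∃ i j, i ≠ j ∧ c i = c j ∧ x = E i * E j}

/-- The endomorphisms. -/
def enM (E : Fin N → Matrix (Fin d) (Fin d) ℂ) (i : Fin N) : Module.End ℂ (Fin d → ℂ) :=
  Matrix.toLinAlgEquiv' (E i)

theorem soM_map : (soM E c).map (Matrix.toLinAlgEquiv' (R := ℂ) (n := Fin d)).toLinearMap =
    soC (enM E) c := by
  unfold soM soC
  rw [Submodule.map_span]
  congr 1
  ext x
  constructor
  · rintro ⟨_, ⟨i, j, hij, hc, rfl⟩, rfl⟩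
    refine ⟨i, j, hij, hc, ?_⟩
    change Matrix.toLinAlgEquiv' (E i * E j) = _
    rw [map_mul]
    rfl
  · rintro ⟨i, j, hij, hc, rfl⟩
    refine ⟨_, ⟨i, j, hij, hc, rfl⟩, ?_⟩
    change Matrix.toLinAlgEquiv' (E i * E j) = _
    rw [map_mul]
    rfl

theorem mem_soM {x : Matrix (Fin d) (Fin d) ℂ} :
    x ∈ soM E c ↔ Matrix.toLinAlgEquiv' x ∈ soC (enM E) c := by
  rw [← soM_map]
  constructor
  · intro h
    exact ⟨x, h, rfl⟩
  · rintro ⟨y, hy, h⟩
    rw [← Matrix.toLinAlgEquiv'.injective h]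
    exact hy

variable (hsq : ∀ i, E i * E i = 1) (hanti : ∀ i j, i ≠ j → E i * E j = -(E j * E i))
include hsq hanti

theorem enM_CE : CE (enM E) := by
  refine ⟨fun i => ?_, fun i j hij => ?_⟩
  · unfold enM
    rw [← map_mul, hsq, map_one]
  · unfold enM
    rw [← map_mul, ← map_mul, hanti i j hij, map_neg]

theorem soM_br {x y : Matrix (Fin d) (Fin d) ℂ} (hx : x ∈ soM E c) (hy : y ∈ soM E c) :
    x * y - y * x ∈ soM E c := by
  rw [mem_soM] at hx hy ⊢
  rw [map_sub, map_mul, map_mul]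
  exact soC_br (enM_CE hsq hanti) hx hy

/-- **The spin representations are rigid.** -/
theorem soM_rigid (hc : ∀ i, 6 ≤ (Finset.univ.filter fun j => c j = c i).card) :
    Rigid (soM E c) := by
  intro 𝔥 h𝔥 hbr hgen
  rcases Nat.eq_zero_or_pos d with rfl | hd
  · intro x hx
    have h1 : x = 0 := Matrix.ext fun i => i.elim0
    rw [h1]
    exact 𝔥.zero_mem
  haveI : Nonempty (Fin d) := ⟨⟨0, hd⟩⟩
  let f := (Matrix.toLinAlgEquiv' (R := ℂ) (n := Fin d))
  have hadj : ∀ x ∈ Algebra.adjoin ℂ (𝔥 : Set (Matrix (Fin d) (Fin d) ℂ)), f x ∈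
      Algebra.adjoin ℂ (𝔥.map f.toLinearMap : Set (Module.End ℂ (Fin d → ℂ))) := by
    intro x hx
    induction hx using Algebra.adjoin_induction with
    | mem x hx => exact Algebra.subset_adjoin ⟨x, hx, rfl⟩
    | algebraMap r =>
      rw [AlgEquiv.commutes]
      exact Subalgebra.algebraMap_mem _ r
    | add x y _ _ hx hy => rw [map_add]; exact Subalgebra.add_mem _ hx hy
    | mul x y _ _ hx hy => rw [map_mul]; exact Subalgebra.mul_mem _ hx hy
  have key := main_col (enM_CE hsq hanti) hc (𝔥.map f.toLinearMap) ?_ ?_ ?_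
  · intro x hx
    obtain ⟨y, hy, h⟩ := key (mem_soM.1 hx)
    rw [← f.injective h]
    exact hy
  · rintro _ ⟨x, hx, rfl⟩
    exact mem_soM.1 (h𝔥 hx)
  · rintro _ ⟨x, hx, rfl⟩ _ ⟨y, hy, rfl⟩
    refine ⟨x * y - y * x, hbr x hx y hy, ?_⟩
    change f (x * y - y * x) = f x * f y - f y * f x
    rw [map_sub, map_mul, map_mul]
  · intro i j hij
    by_cases h : i = j
    · subst h
      rw [(enM_CE hsq hanti).sq]
      exact one_mem _
    · have h1 : enM E i * enM E j = f (E i * E j) := (map_mul f _ _).symm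
      rw [h1]
      exact hadj _ (hgen _ (Submodule.subset_span ⟨i, j, h, hij, rfl⟩))

section AV

open Pool.Agent.W516.DR Pool.Agent.H204R3.GP

variable {g : ℕ} {A : AbVar g}
  {P : Matrix (Fin (2 * g)) (Fin d) ℂ} {Q : Matrix (Fin d) (Fin (2 * g)) ℂ}

/-- **The rigid part given by a spin representation.** -/
theorem rigPart_spin (hc : ∀ i, 6 ≤ (Finset.univ.filter fun j => c j = c i).card)
    (hQP : Q * P = 1) (hst : ∀ X ∈ A.NA, P * Q * toC X = toC X * (P * Q))
    (hle : ∀ X ∈ A.NA, ∃ t : ℂ, Q * toC X * P + t • 1 ∈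
      Submodule.span ℂ {Y | ∃ i j, i ≠ j ∧ c i = c j ∧ Y = E i * E j})
    (hgen : ∀ i j, i ≠ j → c i = c j → ∃ Y ∈ Algebra.adjoin ℂ (Submodule.span ℂ
        {Y | ∃ X ∈ A.NA, Y = toC X} : Set (Matrix (Fin (2 * g)) (Fin (2 * g)) ℂ)),
      E i * E j = Q * Y * P) :
    RigPart A (matE (2 * g) (P * Q)) ((soM E c).map (io P Q)) := by
  refine rigPart_corner (soM_rigid hsq hanti hc) (fun x hx y hy => soM_br hsq hanti hx hy) hQP
    hst hle fun z hz => ?_
  induction hz using Submodule.span_induction with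
  | mem x hx =>
    obtain ⟨i, j, hij, hc, rfl⟩ := hx
    exact hgen i j hij hc
  | zero => exact ⟨0, Subalgebra.zero_mem _, by rw [Matrix.mul_zero, Matrix.zero_mul]⟩
  | add x y _ _ hx hy =>
    obtain ⟨a, ha, h1⟩ := hx
    obtain ⟨b, hb, h2⟩ := hy
    exact ⟨a + b, Subalgebra.add_mem _ ha hb, by rw [Matrix.mul_add, Matrix.add_mul, h1, h2]⟩
  | smul t x _ hx =>
    obtain ⟨a, ha, h1⟩ := hx
    exact ⟨t • a, Subalgebra.smul_mem _ ha t, by rw [Matrix.mul_smul, Matrix.smul_mul, h1]⟩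

end AV

end Pool.Agent.N113.BT
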